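import Pool.Agent.H.MP_e9aa5f_an.G
import Pool.Agent.H.MP_c4e2dd_an.B
namespace Pool.Agent.H.MP_496271_an
open MeasureTheory Metric Pool.Agent.H.MP_ceba03_an ComplexConjugate Filter Topology
open Pool.Agent.H.MP_e9aa5f_an Pool.Agent.H.MP_c4e2dd_an Pool.Agent.H.MP_535799_an Complex

def Ne (g : T → ℂ) : Prop := ∀ n < 0, fourierCoeff g n = 0

lemma hc (c : ℂ) : HI (fun _ => c) ‖c‖ := ⟨bd_const _, fun n hn => by
  simpa [fc_one hn.ne] using fourierCoeff.const_mul (fun _ : T => (1 : ℂ)) c n⟩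

lemma bd_add {φ ψ : T → ℂ} {B C : ℝ} (h : Bd φ B) (h' : Bd ψ C) :
    Bd (fun t => φ t + ψ t) (B + C) := by simpa using h.sub h'.neg

lemma bd_conj {φ : T → ℂ} {B : ℝ} (h : Bd φ B) : Bd (fun t => conj (φ t)) B :=
  ⟨continuous_conj.comp_aestronglyMeasurable h.1, by simpa using h.2⟩

lemma bd_congr {φ ψ : T → ℂ} {B : ℝ} (h : Bd φ B) (h' : φ =ᵐ[μ] ψ) : Bd ψ B :=
  ⟨h.1.congr h', by filter_upwards [h.2, h'] with t h1 h2; rwa [← h2]⟩

lemma HH.mul {f g : T → ℂ} (hf : HH f) (hg : HH g) : HH fun t => f t * g t :=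
  let ⟨_, h1⟩ := hf; let ⟨_, h2⟩ := hg; ⟨_, h1.mul h2⟩

lemma HH.sub {f g : T → ℂ} (hf : HH f) (hg : HH g) : HH fun t => f t - g t :=
  let ⟨_, h1⟩ := hf; let ⟨_, h2⟩ := hg; ⟨_, HI.sub h1 h2⟩

lemma HH.add {f g : T → ℂ} (hf : HH f) (hg : HH g) : HH fun t => f t + g t :=
  let ⟨_, h1⟩ := hf; let ⟨_, h2⟩ := hg; ⟨_, by simpa using HI.sub h1 h2.neg⟩

lemma HH.const (c : ℂ) : HH fun _ => c := ⟨_, hc c⟩

lemma HH.congr {f g : T → ℂ} (hf : HH f) (h : f =ᵐ[μ] g) : HH g :=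
  let ⟨_, h1⟩ := hf
  ⟨_, bd_congr h1.1 h, fun n hn => by rw [← fourierCoeff_congr_ae h, h1.2 n hn]⟩

lemma HH.hi {f : T → ℂ} (hf : HH f) {B : ℝ} (h : ∀ᵐ t ∂μ, ‖f t‖ ≤ B) : HI f B :=
  let ⟨_, h1⟩ := hf; ⟨⟨h1.1.1, h⟩, h1.2⟩

lemma HH.int {f : T → ℂ} (hf : HH f) : Integrable f μ := let ⟨_, h1⟩ := hf; h1.1.int

lemma fc_zero (g : T → ℂ) : fourierCoeff g 0 = ∫ t, g t ∂μ := by simp [fourierCoeff]

lemma fc_dist {f g : T → ℂ} (hf : Integrable f μ) (hg : Integrable g μ) (n : ℤ) :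
    ‖fourierCoeff f n - fourierCoeff g n‖ ≤ ∫ t, ‖f t - g t‖ ∂μ := by
  rw [← fc_sub hf hg]
  exact (norm_integral_le_integral_norm _).trans (le_of_eq (by simp [Circle.norm_coe]))

lemma fc_lim {ι : Type} {l : Filter ι} {f : ι → T → ℂ} {g : T → ℂ} (hf : ∀ i, Integrable (f i) μ)
    (hg : Integrable g μ) (h : Tendsto (fun i => ∫ t, ‖f i t - g t‖ ∂μ) l (𝓝 0)) (n : ℤ) :
    Tendsto (fun i => fourierCoeff (f i) n) l (𝓝 (fourierCoeff g n)) :=
  tendsto_iff_norm_sub_tendsto_zero.2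
    (squeeze_zero (fun _ => norm_nonneg _) (fun i => fc_dist (hf i) hg n) h)

lemma hh_lim {f : ℕ → T → ℂ} {g : T → ℂ} {B : ℝ} (hf : ∀ i, HH (f i)) (hg : Bd g B)
    (h : Tendsto (fun i => ∫ t, ‖f i t - g t‖ ∂μ) atTop (𝓝 0)) : HI g B :=
  ⟨hg, fun n hn => tendsto_nhds_unique (fc_lim (fun i => HH.int (hf i)) hg.int h n) (by
    have : ∀ i, fourierCoeff (f i) n = 0 := fun i => let ⟨_, h1⟩ := hf i; h1.2 n hn
    simp [this])⟩

lemma hh_unif {f : ℕ → T → ℂ} {g : T → ℂ} {B : ℝ} (hf : ∀ i, HH (f i)) (hg : Bd g B) {b : ℕ → ℝ}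
    (hb : Tendsto b atTop (𝓝 0)) (h : ∀ i, ∀ᵐ t ∂μ, ‖f i t - g t‖ ≤ b i) : HI g B :=
  hh_lim hf hg (squeeze_zero (fun _ => integral_nonneg fun _ => norm_nonneg _) (fun i => by
    simpa using integral_mono_ae ((HH.int (hf i)).sub hg.int).norm (integrable_const _) (h i)) hb)

lemma mean_mul {f g : T → ℂ} (hf : HH f) (hg : HH g) :
    ∫ t, f t * g t ∂μ = (∫ t, f t ∂μ) * ∫ t, g t ∂μ := by
  obtain ⟨_, h1⟩ := HH.sub hf (HH.const (∫ t, f t ∂μ))
  obtain ⟨_, h2⟩ := hg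
  obtain ⟨_, h3⟩ := hf
  have h4 := mul_spec h1.1 h2.1 0 fun m hm => h2.2 _ (by
    rcases lt_trichotomy m 0 with h | rfl | h
    · exact absurd (h1.2 m h) hm
    · exact absurd (by rw [fc_zero, integral_sub h3.1.int (integrable_const _)]; simp) hm
    · omega)
  simp only [fc_zero, sub_mul] at h4
  rw [integral_sub (h3.1.mul h2.1).int (h2.1.int.const_mul _), integral_const_mul] at h4
  exact sub_eq_zero.1 h4

lemma fc_conj (g : T → ℂ) (n : ℤ) :
    fourierCoeff (fun t => conj (g t)) n = conj (fourierCoeff g (-n)) := by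
  simp only [fourierCoeff, ← integral_conj, smul_eq_mul, map_mul, neg_neg, fourier_neg]

lemma fe_im (N : ℕ) (x : T) : (fe N x).im = 0 := by
  rw [← conj_eq_iff_im, fe, ContinuousMap.sum_apply, map_sum, Finset.sum_product,
    Finset.sum_product, Finset.sum_comm]
  refine Finset.sum_congr rfl fun j _ => Finset.sum_congr rfl fun k _ => ?_
  rw [ContinuousMap.smul_apply, ContinuousMap.smul_apply, smul_eq_mul, smul_eq_mul, map_mul,
    ← fourier_neg, neg_sub]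
  simp

lemma fj_poly {g : T → ℂ} (h : Ne g) (N : ℕ) :
    ∃ p : Polynomial ℂ, ∀ t, fj N g t = p.eval (e t) := by
  obtain ⟨p, q, -, h4, h5⟩ := tp_split (Finset.Icc (-(N : ℤ)) N) fun m => w N m * fourierCoeff g m
  rw [h5 fun m hm => by simp [h m hm]] at h4
  exact ⟨p, fun t => by simpa [fj] using h4 t⟩

lemma fj_mean (g : T → ℂ) (N : ℕ) : ∫ t, fj N g t ∂μ = ∫ t, g t ∂μ := by
  have h0 : w N 0 = 1 := by simpa [sub_eq_zero] using w_near N 0
  rw [← fc_zero, ← co_toL, fj, co_tp, if_pos (by simp), h0, one_mul, fc_zero]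

lemma of_l2 {c : ℤ → ℂ} (h : Memℓp c 2) : ∃ g : T → ℂ, Integrable g μ ∧ ∀ n, fourierCoeff g n = c n :=
  ⟨(fourierBasis (T := 1)).repr.symm ⟨c, h⟩, (Lp.memLp _).integrable (by norm_num), fun n => by
    rw [← fourierBasis_repr, LinearIsometryEquiv.apply_symm_apply]⟩

lemma herg {a : T → ℝ} {B : ℝ} (h : Bd (fun t => a t) B) : ∃ G : T → ℂ, Integrable G μ ∧ Ne G ∧
    (∀ t, (G t).re = a t) ∧ ∫ t, G t ∂μ = ∫ t, a t ∂μ := by
  have m2 : MemLp (fun t => (a t : ℂ)) 2 μ := .of_bound h.1 B h.2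
  set c := fourierCoeff fun t => (a t : ℂ) with hc
  have h1 : ∀ n, conj (c (-n)) = c n := fun n => by rw [← fc_conj]; simp [hc]
  obtain ⟨G, h2, h3⟩ := of_l2 (c := fun n => if n < 0 then -c n else if n = 0 then 0 else c n)
    ((lp.memℓp (fourierBasis.repr (m2.toLp _))).mono' fun n => by
      rw [fourierBasis_repr, fourierCoeff_congr_ae m2.coeFn_toLp]
      split_ifs <;> simp [hc])
  have h4 := (conjCLE : ℂ →L[ℝ] ℂ).integrable_comp h2
  have h5 := zero_of (h2.add h4) fun n => by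
    refine (fc_add h2 h4 n).trans ?_
    change _ + fourierCoeff (fun t => conj (G t)) n = 0
    rw [fc_conj, h3, h3]
    rcases lt_trichotomy n 0 with hn | rfl | hn
    · simp [hn, hn.ne, hn.not_gt, h1]
    · simp
    · simp [hn, hn.ne', hn.not_gt, h1]
  have h6 : (fun t => (a t : ℂ) + G t) =ᵐ[μ] fun t => a t + (G t).im * I := by
    filter_upwards [h5] with t ht
    have : (G t).re = 0 := by simpa using congrArg re ht
    apply Complex.ext <;> simp [this]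
  refine ⟨_, (h.int.add h2).congr h6, fun n hn => ?_, by simp, ?_⟩
  · rw [← fourierCoeff_congr_ae h6, fc_add h.int h2, h3]; simp [hn, hc]
  · rw [← integral_congr_ae h6, integral_add h.int h2, ← fc_zero G, h3, integral_complex_ofReal]
    simp

lemma exp_lip {x y : ℂ} {B : ℝ} (hx : x.re ≤ B) (hy : y.re ≤ B) :
    ‖cexp x - cexp y‖ ≤ Real.exp B * ‖x - y‖ :=
  (convex_halfSpace_re_le B).norm_image_sub_le_of_norm_deriv_le (𝕜 := ℂ)
    (fun _ _ => by fun_prop) (fun z hz => by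
      rw [Complex.deriv_exp, Complex.norm_exp]; exact Real.exp_le_exp.2 hz) hy hx

lemma fj_re {G : T → ℂ} {B : ℝ} (h : Integrable G μ) (hB : ∀ᵐ t ∂μ, |(G t).re| ≤ B) (N : ℕ)
    (x : T) : (fj N G x).re ≤ B := by
  obtain ⟨_, h1⟩ := bd_cont (φ := fun t => fe N (x - t)) (by fun_prop)
  rw [fj_conv N h, ← RCLike.re_to_complex, ← integral_re (h.mul_bdd h1.1 h1.2)]
  refine (integral_mono_ae (g := fun t => B * ‖fe N (x - t)‖) (h.mul_bdd h1.1 h1.2).re
    (cint' (by fun_prop)) ?_).trans (le_of_eq ?_)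
  · filter_upwards [hB] with t ht
    rw [RCLike.re_to_complex, mul_re, fe_im, mul_zero, sub_zero]
    refine (le_abs_self _).trans ?_
    rw [abs_mul]
    exact mul_le_mul ht (abs_re_le_norm _) (abs_nonneg _) ((abs_nonneg _).trans ht)
  · rw [integral_const_mul, integral_sub_left_eq_self (fun t => ‖fe N t‖), fe_norm, mul_one]

lemma fj_exp {G : T → ℂ} (h' : Ne G) (N : ℕ) :
    HH (fun t => cexp (fj N G t)) ∧ ∫ t, cexp (fj N G t) ∂μ = cexp (∫ t, G t ∂μ) := by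
  obtain ⟨p, hp⟩ := fj_poly h' N
  rw [← fj_mean G N]
  simp only [hp]
  have h3 : An fun w => cexp (p.eval w) := fun w _ =>
    (p.differentiable.cexp).analyticAt w
  have h4 := mv0 h3
  have h5 := mv0 (an_poly p)
  beta_reduce at h4 h5
  rw [h4, h5]
  exact ⟨(hh_an h3 :), rfl⟩

lemma exp_hi {G : T → ℂ} {B : ℝ} (h : Integrable G μ) (h' : Ne G) (hB : ∀ᵐ t ∂μ, |(G t).re| ≤ B) :
    HH (fun t => cexp (G t)) ∧ ∫ t, cexp (G t) ∂μ = cexp (∫ t, G t ∂μ) := by
  have h2 : Bd (fun t => cexp (G t)) (Real.exp B) :=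
    ⟨continuous_exp.comp_aestronglyMeasurable h.1, hB.mono fun t ht => by
      rw [Complex.norm_exp]; exact Real.exp_le_exp.2 (le_of_abs_le ht)⟩
  have h3 := fj_exp h'
  have h4 : Tendsto (fun N => ∫ t, ‖cexp (fj N G t) - cexp (G t)‖ ∂μ) atTop (𝓝 0) := by
    refine squeeze_zero (fun _ => integral_nonneg fun _ => norm_nonneg _) (fun N => ?_)
      (by simpa using (fj_tend h).const_mul (Real.exp B))
    rw [← integral_const_mul]
    obtain ⟨_, h4⟩ := bd_cont (fj N G).continuous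
    exact integral_mono_ae ((HH.int (h3 N).1).sub h2.int).norm ((h4.int.sub h).norm.const_mul _)
      (hB.mono fun t ht => exp_lip (fj_re h hB N t) (le_of_abs_le ht))
  refine ⟨⟨_, hh_lim (fun N => (h3 N).1) h2 h4⟩, ?_⟩
  have h5 := fc_lim (fun N => HH.int (h3 N).1) h2.int h4 0
  simp only [fc_zero, fun N => (h3 N).2, tendsto_const_nhds_iff] at h5
  exact h5.symm

lemma outer {a : T → ℝ} {B : ℝ} (h : Bd (fun t => a t) B) : ∃ G : T → ℂ,
    (∀ t, (G t).re = a t) ∧ ∀ c : ℝ, HH (fun t => cexp (c * G t)) ∧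
      ∫ t, cexp (c * G t) ∂μ = Real.exp (c * ∫ t, a t ∂μ) := by
  obtain ⟨G, h1, h2, h3, h4⟩ := herg h
  refine ⟨G, h3, fun c => ?_⟩
  have := exp_hi (B := |c| * B) (h1.const_mul (c : ℂ))
    (fun n hn => by rw [fourierCoeff.const_mul, h2 n hn, mul_zero]) (h.2.mono fun t ht => by
      rw [re_ofReal_mul, abs_mul, h3]; gcongr; simpa using ht)
  rw [integral_const_mul, h4] at this
  simpa using this

lemma l1_lim {f : ℕ → T → ℂ} (hf : ∀ i, Bd (f i) 1)
    (h : ∀ ε > 0, ∃ N, ∀ i ≥ N, ∀ j ≥ N, ∫ t, ‖f i t - f j t‖ ∂μ < ε) :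
    ∃ g, Bd g 1 ∧ Tendsto (fun i => ∫ t, ‖f i t - g t‖ ∂μ) atTop (𝓝 0) := by
  obtain ⟨g, hg⟩ := cauchySeq_tendsto_of_complete ((Metric.cauchySeq_iff
    (u := fun i => (hf i).int.toL1 _)).2 fun ε hε => (h ε hε).imp fun N h i hi j hj => by
      rw [L1.dist_eq_integral_dist]
      refine lt_of_eq_of_lt (integral_congr_ae ?_) (h i hi j hj)
      filter_upwards [(hf i).int.coeFn_toL1, (hf j).int.coeFn_toL1] with t h1 h2
      rw [h1, h2, dist_eq_norm])
  have h1 : Tendsto (fun i => ∫ t, ‖f i t - g t‖ ∂μ) atTop (𝓝 0) := by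
    refine (tendsto_iff_dist_tendsto_zero.1 hg).congr fun i => ?_
    rw [L1.dist_eq_integral_dist]
    refine integral_congr_ae ?_
    filter_upwards [(hf i).int.coeFn_toL1] with t h1
    rw [h1, dist_eq_norm]
  have h2 := L1.integrable_coeFn g
  refine ⟨g, ⟨h2.1, ?_⟩, h1⟩
  have h3 : Integrable (fun t => max (‖g t‖ - 1) 0) μ := (h2.norm.sub (integrable_const 1)).pos_part
  have h4 : ∫ t, max (‖g t‖ - 1) 0 ∂μ ≤ 0 := ge_of_tendsto' h1 fun N => by
    refine integral_mono_ae h3 ((hf N).int.sub h2).norm ((hf N).2.mono fun t ht =>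
      max_le ?_ (norm_nonneg _))
    have := norm_sub_norm_le (g t) (f N t)
    rw [norm_sub_rev] at this
    linarith
  filter_upwards [(integral_eq_zero_iff_of_nonneg (fun t => le_max_right _ _) h3).1
    (le_antisymm h4 (integral_nonneg fun t => le_max_right _ _))] with t ht
  have := le_max_left (‖g t‖ - 1) 0
  simp only [Pi.zero_apply] at ht
  linarith

lemma hh_tsum {f : ℕ → T → ℂ} {b : ℕ → ℝ} (hf : ∀ n, HI (f n) (b n)) (hb : Summable b) :
    HH fun t => ∑' n, f n t := by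
  have h1 : ∀ N, HH fun t => ∑ n ∈ Finset.range N, f n t := fun N => by
    induction N with
    | zero => simpa using HH.const 0
    | succ N ih => simpa only [Finset.sum_range_succ] using HH.add ih ⟨_, hf N⟩
  have h2 := ae_all_iff.2 fun n => (hf n).1.2
  refine ⟨_, hh_unif (B := ∑' n, b n) h1 ⟨aestronglyMeasurable_of_tendsto_ae atTop
    (fun N => (HH.int (h1 N)).1) (h2.mono fun t ht => (hb.of_norm_bounded ht).hasSum.tendsto_sum_nat),
    h2.mono fun t ht => tsum_of_norm_bounded hb.hasSum ht⟩ (tendsto_sum_nat_add b) fun N => ?_⟩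
  filter_upwards [h2] with t ht
  rw [← (hb.of_norm_bounded ht).sum_add_tsum_nat_add N, sub_add_cancel_left, norm_neg]
  exact tsum_of_norm_bounded ((summable_nat_add_iff N).2 hb).hasSum fun n => ht _

lemma hi_pow {f : T → ℂ} {B : ℝ} (h : HI f B) (n : ℕ) : HI (fun t => f t ^ n) (B ^ n) := by
  induction n with
  | zero => simpa using one_hi
  | succ n ih => simpa only [pow_succ] using ih.mul h

lemma l1_sq {g : T → ℂ} {B γ : ℝ} (h : Bd g B) (hγ : 0 < γ) {u : T → ℝ} (hu : Integrable u μ)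
    (h' : ∀ᵐ t ∂μ, ‖g t‖ ^ 2 ≤ u t) : ∫ t, ‖g t‖ ∂μ ≤ (∫ t, u t ∂μ) / (2 * γ) + γ / 2 := by
  refine (integral_mono_ae h.int.norm ((hu.div_const (2 * γ)).add (integrable_const (γ / 2)))
    (h'.mono fun t ht => ?_)).trans (le_of_eq ?_)
  · rw [Pi.add_apply, div_add' _ _ _ (by positivity), le_div_iff₀ (by positivity)]
    nlinarith [sq_nonneg (‖g t‖ - γ)]
  · rw [integral_add' (hu.div_const _) (integrable_const _), integral_div]; simp

lemma near_one {u : T → ℂ} {γ : ℝ} (h : Bd u 1) (hγ : 0 < γ) :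
    ∫ t, ‖u t - 1‖ ∂μ ≤ (1 - (∫ t, u t ∂μ).re) / γ + γ / 2 := by
  refine (l1_sq (h.sub (bd_const 1)) hγ (u := fun t => 2 - 2 * (u t).re)
    ((integrable_const _).sub (h.int.re.const_mul _)) (h.2.mono fun t ht => ?_)).trans
    (le_of_eq ?_)
  · have := pow_le_one₀ (n := 2) (norm_nonneg _) ht
    simp only [Complex.sq_norm, normSq_apply, sub_re, sub_im, one_re, one_im] at this ⊢
    linarith
  · rw [integral_sub (integrable_const _) (by exact h.int.re.const_mul _), integral_const_mul,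
      ← RCLike.re_to_complex, ← integral_re h.int]
    simp; field_simp

end Pool.Agent.H.MP_496271_an
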