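import Pool.Agent.H.MP_496271_an.A
namespace Pool.Agent.H.MP_496271_an
open MeasureTheory Metric Pool.Agent.H.MP_ceba03_an ComplexConjugate Filter Topology
open Pool.Agent.H.MP_e9aa5f_an Pool.Agent.H.MP_c4e2dd_an Pool.Agent.H.MP_535799_an Complex

lemma bd_real {a : T → ℝ} {B : ℝ} (h : AEStronglyMeasurable a μ) (h' : ∀ᵐ t ∂μ, |a t| ≤ B) :
    Bd (fun t => a t) B :=
  ⟨continuous_ofReal.comp_aestronglyMeasurable h, by simpa using h'⟩

lemma outer1 {a : T → ℝ} {B : ℝ} (h : AEStronglyMeasurable a μ) (h' : ∀ᵐ t ∂μ, |a t| ≤ B) :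
    ∃ O, HH O ∧ (∀ t, ‖O t‖ = Real.exp (a t)) ∧ ∫ t, O t ∂μ = Real.exp (∫ t, a t ∂μ) := by
  obtain ⟨G, h1, h2⟩ := outer (bd_real h h')
  exact ⟨_, (h2 1).1, fun t => by simp [Complex.norm_exp, h1], by simpa using (h2 1).2⟩

lemma val_dist {f g : T → ℂ} (hf : Integrable f μ) (hg : Integrable g μ) :
    (∫ t, f t ∂μ).re ≤ (∫ t, g t ∂μ).re + ∫ t, ‖f t - g t‖ ∂μ := by
  have := (re_le_norm _).trans (fc_dist hf hg 0)
  rw [fc_zero, fc_zero, sub_re] at this
  linarith

lemma val_le {f : T → ℂ} {B : ℝ} (hf : Bd f B) : |(∫ t, f t ∂μ).re| ≤ B :=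
  (abs_re_le_norm _).trans (fc_zero f ▸ fc_le hf 0)

lemma aak {v : T → ℂ} (hv : Bd v (1 / 2)) : ∃ w, Bd w 1 ∧ (∀ᵐ t ∂μ, ‖w t‖ = 1) ∧
    HH (fun t => w t - v t) ∧ 1 - 3 * ∫ t, ‖v t‖ ∂μ ≤ (∫ t, w t ∂μ).re := by
  let K : Set (T → ℂ) := {k | Bd k 1 ∧ HH fun t => k t - v t}
  let V : (T → ℂ) → ℝ := fun k => (∫ t, k t ∂μ).re
  have hb : BddAbove (V '' K) := ⟨1, by rintro _ ⟨k, hk, rfl⟩; exact le_of_abs_le (val_le hk.1)⟩
  have hn : (V '' K).Nonempty := ⟨_, v, ⟨hv.mono (by norm_num), by simpa using HH.const 0⟩, rfl⟩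
  set a := sSup (V '' K)
  have ha : ∀ k ∈ K, V k ≤ a := fun k hk => le_csSup hb ⟨k, hk, rfl⟩
  have Q : ∀ β > 0, ∃ s > 0, ∀ k ∈ K, a - s < V k → ∫ t, (1 - ‖k t‖) ∂μ < β := by
    intro β hβ
    refine ⟨Real.exp (-(2 / β)), Real.exp_pos _, fun k hk h => ?_⟩
    by_contra! h1
    set l := 2 / β with hl
    have l0 : 0 ≤ l := by positivity
    set s := Real.exp (-l) with hs
    have s0 : 0 < s := Real.exp_pos _
    have s1 : s ≤ 1 := Real.exp_le_one_iff.2 (by linarith)
    have i1 := (integrable_const (1 : ℝ)).sub hk.1.int.norm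
    obtain ⟨O, h2, h3, h4⟩ := outer1 (a := fun t => Real.log (s / 2) + l * (1 - ‖k t‖))
      (B := |Real.log (s / 2)| + l) ((integrable_const _).add (i1.const_mul l)).1
      (hk.1.2.mono fun t ht => (abs_add_le _ _).trans (by
        rw [abs_mul, abs_of_nonneg l0, abs_of_nonneg (sub_nonneg.2 ht)]
        nlinarith [norm_nonneg (k t)]))
    have h5 := HH.add (HH.mul (HH.const (1 - s)) hk.2) h2
    have h6 := ha (fun t => v t + ((1 - s) * (k t - v t) + O t))
      ⟨⟨hv.1.add (HH.int h5).1, ?_⟩, by simpa using h5⟩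
    · simp only [V] at h h6
      rw [integral_add hv.int (HH.int h5), integral_add ((HH.int hk.2).const_mul _) (HH.int h2),
        integral_const_mul, integral_sub hk.1.int hv.int, h4, integral_add (integrable_const _)
        (by exact i1.const_mul l), integral_const_mul, Real.exp_add] at h6
      simp only [integral_const, probReal_univ, one_smul, Real.exp_log (half_pos s0), add_re,
        ofReal_re, ← ofReal_one, ← ofReal_sub, re_ofReal_mul, sub_re] at h6
      have h7 : 5 ≤ Real.exp (l * ∫ t, (1 - ‖k t‖) ∂μ) := by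
        refine le_trans ?_ (Real.exp_le_exp.2 (show 2 ≤ _ from ?_))
        · linarith [Real.quadratic_le_exp_of_nonneg (show (0 : ℝ) ≤ 2 by norm_num)]
        · rw [hl, div_mul_eq_mul_div, le_div_iff₀ hβ]; linarith
      nlinarith [abs_le.1 (val_le hk.1), abs_le.1 (val_le hv)]
    · filter_upwards [hk.1.2, hv.2] with t h7 h8
      have h9 := convexOn_exp.2 (Set.mem_univ 0) (Set.mem_univ l) (norm_nonneg (k t))
        (sub_nonneg.2 h7) (by ring)
      have h10 : s * Real.exp l = 1 := by simp [hs, ← Real.exp_add]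
      rw [show v t + ((1 - s) * (k t - v t) + O t) = (1 - s : ℝ) * k t + s * v t + O t by
        push_cast; ring]
      refine norm_add₃_le.trans ?_
      rw [h3, Real.exp_add, Real.exp_log (half_pos s0), norm_mul, norm_mul, Complex.norm_real,
        Complex.norm_real, Real.norm_of_nonneg s0.le, Real.norm_of_nonneg (sub_nonneg.2 s1)]
      simp only [smul_eq_mul, mul_zero, zero_add, Real.exp_zero, mul_one, mul_comm _ l] at h9
      have h11 := mul_le_mul_of_nonneg_left h9 (half_pos s0).le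
      have h12 : s / 2 * (‖k t‖ + (1 - ‖k t‖) * Real.exp l) = s / 2 * ‖k t‖ + (1 - ‖k t‖) / 2 := by
        linear_combination (1 - ‖k t‖) / 2 * h10
      nlinarith [mul_nonneg (sub_nonneg.2 s1) (sub_nonneg.2 h7)]
  have h1 : ∀ j : ℕ, ∃ k ∈ K, a - 1 / (j + 1) < V k := fun j => by
    obtain ⟨_, ⟨k, hk, rfl⟩, h⟩ := exists_lt_of_lt_csSup hn
      (sub_lt_self a (Nat.one_div_pos_of_nat (n := j)))
    exact ⟨k, hk, h⟩
  choose k hk hk' using h1
  obtain ⟨w, h2, h3⟩ := l1_lim (fun j => (hk j).1) fun ε hε => by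
    obtain ⟨s, s0, hs⟩ := Q (ε ^ 2 / 8) (by positivity)
    obtain ⟨N, hN⟩ := exists_nat_one_div_lt s0
    have h2 : ∀ i ≥ N, a - s < V (k i) := fun i hi =>
      lt_of_le_of_lt (by linarith [Nat.one_div_le_one_div (α := ℝ) hi]) (hk' i)
    refine ⟨N, fun i hi j hj => ?_⟩
    have b : Bd (fun t => 1 / 2 * (k i t + k j t)) 1 := by
      simpa [one_add_one_eq_two] using (bd_const (1 / 2)).mul (bd_add (hk i).1 (hk j).1)
    have h3 := hs _ ⟨b, HH.congr (HH.mul (HH.const (1 / 2)) (HH.add (hk i).2 (hk j).2))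
      (.of_forall fun t => by ring)⟩ (by
        have := h2 i hi
        have := h2 j hj
        simp only [V] at *
        rw [integral_const_mul, integral_add (hk i).1.int (hk j).1.int]
        simp; linarith)
    refine (l1_sq ((hk i).1.sub (hk j).1) hε
      (((integrable_const (1 : ℝ)).sub b.int.norm).const_mul 8) ?_).trans_lt ?_
    · filter_upwards [(hk i).1.2, (hk j).1.2] with t h4 h5
      have := parallelogram_law_with_norm ℝ (k i t) (k j t)
      simp only [Pi.sub_apply, norm_mul, norm_div, norm_one, Complex.norm_ofNat]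
      nlinarith [norm_nonneg (k i t), norm_nonneg (k j t), sq_nonneg (‖k i t + k j t‖ - 2)]
    · simp only [Pi.sub_apply]
      rw [integral_const_mul, div_add' _ _ _ (by positivity), div_lt_iff₀ (by positivity)]
      nlinarith
  have hw : w ∈ K := ⟨h2, _, hh_lim (fun j => (hk j).2) (h2.sub hv) (by simpa using h3)⟩
  have h4 : a ≤ V w := by
    refine le_of_tendsto_of_tendsto' (f := fun j : ℕ => a - 1 / ((j : ℝ) + 1)) (by
      simpa using tendsto_one_div_add_atTop_nhds_zero_nat.const_sub a)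
      (by simpa using h3.const_add (V w)) fun j => ?_
    exact (hk' j).le.trans (val_dist (hk j).1.int h2.int)
  have i1 := (integrable_const (1 : ℝ)).sub h2.int.norm
  have h5 := h2.2.mono fun t ht => sub_nonneg.2 ht
  have h6 := (integral_eq_zero_iff_of_nonneg_ae h5 i1).1 (le_antisymm (le_of_forall_gt fun β hβ => by
    obtain ⟨s, s0, hs⟩ := Q β hβ
    exact hs w hw (by linarith)) (integral_nonneg_of_ae h5))
  refine ⟨w, h2, h6.mono fun t ht => (sub_eq_zero.1 ht).symm, hw.2, le_trans ?_ h4⟩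
  obtain ⟨O, h7, h8, h9⟩ := outer1 (a := fun t => -2 * ‖v t‖) (B := 1) (hv.int.norm.const_mul _).1
    (hv.2.mono fun t ht => by rw [abs_le]; constructor <;> linarith [norm_nonneg (v t)])
  refine le_trans ?_ (ha (fun t => v t + O t) ⟨⟨hv.1.add (HH.int h7).1, hv.2.mono fun t ht =>
    (norm_add_le _ _).trans ?_⟩, by simpa using h7⟩)
  · simp only [V]
    rw [integral_add hv.int (HH.int h7), h9, add_re, ofReal_re, integral_const_mul]
    have := (abs_re_le_norm _).trans (norm_integral_le_integral_norm (μ := μ) v)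
    linarith [Real.add_one_le_exp (-2 * ∫ t, ‖v t‖ ∂μ), abs_le.1 this]
  · rw [h8, neg_mul, Real.exp_neg, ← le_sub_iff_add_le', inv_le_iff_one_le_mul₀ (Real.exp_pos _)]
    nlinarith [Real.add_one_le_exp (2 * ‖v t‖), norm_nonneg (v t)]

end Pool.Agent.H.MP_496271_an
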