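import Pool.Agent.H.MP_496271_an.B
namespace Pool.Agent.H.MP_496271_an
open MeasureTheory Metric Pool.Agent.H.MP_ceba03_an ComplexConjugate Filter Topology
open Pool.Agent.H.MP_e9aa5f_an Pool.Agent.H.MP_c4e2dd_an Pool.Agent.H.MP_535799_an Complex

def Inn (u : T → ℂ) : Prop := HH u ∧ ∀ᵐ t ∂μ, ‖u t‖ = 1

lemma Inn.hi {u : T → ℂ} (h : Inn u) : HI u 1 := HH.hi h.1 (h.2.mono fun _ h => h.le)

lemma Inn.mul {u v : T → ℂ} (h : Inn u) (h' : Inn v) : Inn fun t => u t * v t :=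
  ⟨HH.mul h.1 h'.1, by filter_upwards [h.2, h'.2] with t h1 h2; simp [h1, h2]⟩

lemma inn_one : Inn fun _ => 1 := ⟨HH.const 1, by simp⟩

noncomputable def d1 (u : T → ℂ) : ℝ := ∫ t, ‖u t - 1‖ ∂μ

lemma d1_mul {u v : T → ℂ} (h : Bd u 1) (h' : Bd v 1) : d1 (fun t => u t * v t) ≤ d1 u + d1 v := by
  have i1 := (h.sub (bd_const 1)).int.norm
  have i2 := (h'.sub (bd_const 1)).int.norm
  refine (integral_mono_ae ((h.mul h').sub (bd_const 1)).int.norm (i1.add i2) ?_).trans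
    (integral_add i1 i2).le
  filter_upwards [h.2] with t ht
  rw [show u t * v t - 1 = u t - 1 + u t * (v t - 1) by ring]
  refine (norm_add_le _ _).trans (add_le_add le_rfl ?_)
  rw [norm_mul]; exact mul_le_of_le_one_left (norm_nonneg _) ht

noncomputable def cc (r : ℝ) (n : ℕ) : ℝ := r ^ n / ((r⁻¹ ^ 2) ^ n + 1)
noncomputable def ee (r : ℝ) (n : ℕ) : ℝ := cc r n * (r⁻¹ ^ 2) ^ n

lemma ce {r : ℝ} (h : 0 < r) (n : ℕ) : cc r n + ee r n = r ^ n := by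
  unfold ee cc; field_simp; ring

lemma cc0 {r : ℝ} (h : 0 < r) (n : ℕ) : 0 ≤ cc r n := by unfold cc; positivity

lemma ee0 {r : ℝ} (h : 0 < r) (n : ℕ) : 0 ≤ ee r n := mul_nonneg (cc0 h n) (by positivity)

lemma ser {r : ℝ} (h0 : 0 < r) (h1 : r ≤ 1 / 2) {τ σ : ℂ} (hτ : ‖τ‖ = 1)
    (h : HasSum (fun n => ee r n * (τ ^ n + τ⁻¹ ^ n)) σ) : conj σ = σ ∧ ‖σ - 1‖ ≤ 4 * r := by
  constructor
  · refine (hasSum_conj'.2 h).unique ?_
    convert h using 2 with n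
    simp [inv_eq_conj hτ, add_comm]
  · have h2 := (hasSum_nat_add_iff' 1).2 h
    rw [show ∑ i ∈ Finset.range 1, ee r i * (τ ^ i + τ⁻¹ ^ i) = 1 by simp [ee, cc]] at h2
    refine (h2.norm_le_of_bounded ((hasSum_geometric_of_lt_one h0.le (by linarith)).mul_left
      (2 * r)) fun n => ?_).trans ?_
    · rw [norm_mul, Complex.norm_real, Real.norm_of_nonneg (ee0 h0 _)]
      calc _ ≤ r ^ (n + 1) * 2 := by
            gcongr
            · linarith [ce h0 (n + 1), cc0 h0 (n + 1)]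
            · exact (norm_add_le _ _).trans (by simp [hτ]; norm_num)
        _ = _ := by ring
    · rw [← div_eq_mul_inv, div_le_iff₀ (by linarith)]; nlinarith

noncomputable def aa (r : ℝ) (n : ℕ) (ω : ℂ) : ℂ := cc r n * ω ^ n - ee r n * ω⁻¹ ^ n

lemma phi {r x : ℝ} (h0 : 0 < r) (h1 : r ≤ 1 / 2) {ω Ψ : ℂ} (hx : x = 0 ∨ x = 1)
    (hω : ‖ω‖ = (r⁻¹ ^ 2) ^ x) (h : HasSum (fun n => aa r n ω) Ψ) :
    conj (ω / (ω - (r : ℂ)⁻¹) + Ψ) = ω / (ω - (r : ℂ)⁻¹) + Ψ ∧ ‖ω / (ω - (r : ℂ)⁻¹) + Ψ - x‖ ≤ 4 * r := by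
  have r0 : (r : ℂ) ≠ 0 := ofReal_ne_zero.2 h0.ne'
  have h2 : ∀ n, (cc r n : ℂ) + ee r n = r ^ n := fun n => by exact_mod_cast ce h0 n
  rcases hx with rfl | rfl
  · rw [Real.rpow_zero] at hω
    have h3 : ‖r * ω‖ < 1 := by simp [hω, abs_of_pos h0]; linarith
    have h4 : 1 - r * ω ≠ 0 := fun h => by simp [← sub_eq_zero.1 h] at h3
    obtain ⟨h5, h6⟩ := ser h0 h1 hω (σ := (1 - r * ω)⁻¹ - Ψ) (by
      convert (hasSum_geometric_of_norm_lt_one h3).sub h using 1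
      · rfl
      funext n
      rw [aa, mul_pow, ← h2]; ring)
    have h7 : ω / (ω - (r : ℂ)⁻¹) + Ψ = 1 - ((1 - r * ω)⁻¹ - Ψ) := by
      rw [show ω - (r : ℂ)⁻¹ = -((r : ℂ)⁻¹ * (1 - r * ω)) by field_simp; ring]
      rw [mul_comm] at h4
      field_simp; ring
    rw [h7, map_sub, h5, map_one, ofReal_zero, sub_zero, norm_sub_rev]
    exact ⟨rfl, h6⟩
  · rw [Real.rpow_one] at hω
    have ω0 : ω ≠ 0 := norm_pos_iff.1 (by rw [hω]; positivity)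
    have h3 : ‖(r * ω)⁻¹‖ < 1 := by
      rw [norm_inv, norm_mul, hω, Complex.norm_real, Real.norm_of_nonneg h0.le]
      field_simp; linarith
    have h4 : r * ω - 1 ≠ 0 := fun h => by simp [sub_eq_zero.1 h] at h3
    have h7 : ω / (ω - (r : ℂ)⁻¹) = (1 - (r * ω)⁻¹)⁻¹ := by
      rw [show ω - (r : ℂ)⁻¹ = (r : ℂ)⁻¹ * (r * ω - 1) by field_simp]
      field_simp
    rw [h7]
    refine ser h0 h1 (τ := r ^ 2 * ω) (by simp [hω, h0.ne']) ?_
    convert (hasSum_geometric_of_norm_lt_one h3).add h using 1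
    · rfl
    funext n
    have h5 : ((r : ℂ)⁻¹ ^ 2) ^ n * (r ^ 2) ^ n = 1 := by rw [← mul_pow]; simp [r0]
    have h6 : (r : ℂ)⁻¹ ^ n = r ^ n * ((r : ℂ)⁻¹ ^ 2) ^ n := by
      rw [← mul_pow]; congr 1; field_simp
    have h8 : (ee r n : ℂ) = cc r n * ((r : ℂ)⁻¹ ^ 2) ^ n := by simp [ee]
    rw [aa, mul_inv, mul_inv, mul_pow, mul_pow, mul_pow, h6, ← inv_pow (r : ℂ) 2]
    linear_combination (cc r n * ω ^ n) * h5 + ((r ^ 2) ^ n * ω ^ n + ω⁻¹ ^ n) * h8 +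
      ((r : ℂ)⁻¹ ^ 2) ^ n * ω⁻¹ ^ n * h2 n

def Good (F : T → ℂ) (ε : ℝ) : Prop := (∃ B, Bd F B) ∧ ∃ u, Inn u ∧ d1 u ≤ ε ∧
  HH (fun t => u t * F t) ∧ HH fun t => u t * conj (F t)

lemma om {R γ : ℝ} (R1 : 1 ≤ R) (hγ : 0 < γ) {χ : T → ℝ} (hm : AEStronglyMeasurable χ μ)
    (hχ : ∀ t, χ t = 0 ∨ χ t = 1) (hδ : ∫ t, χ t ∂μ ≤ γ ^ 2 / R ^ 2) :
    ∃ ω, HH ω ∧ HH (fun t => (ω t)⁻¹) ∧ (∀ t, ‖ω t‖ = R ^ χ t) ∧ d1 ω ≤ γ := by
  have bχ := bd_real hm (B := 1) (.of_forall fun t => by rcases hχ t with h | h <;> simp [h])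
  have iχ : Integrable χ μ := by simpa using bχ.int.re
  obtain ⟨G, h2, h3⟩ := outer bχ
  obtain ⟨ω, hω⟩ : ∃ ω : T → ℂ, ω = fun t => cexp (Real.log R * G t) := ⟨_, rfl⟩
  have n1 : ∀ t, ‖ω t‖ = R ^ χ t := fun t => by
    rw [hω, Complex.norm_exp, re_ofReal_mul, h2, Real.rpow_def_of_pos (by linarith)]
  have m1 : 1 ≤ (∫ t, ω t ∂μ).re := by
    rw [hω, (h3 _).2, ofReal_re]
    exact Real.one_le_exp (mul_nonneg (Real.log_nonneg R1) (integral_nonneg fun t => by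
      rcases hχ t with h | h <;> simp [h]))
  obtain ⟨B, a1⟩ : HH ω := hω ▸ (h3 _).1
  refine ⟨ω, ⟨B, a1⟩, by simpa [Complex.exp_neg, hω] using (h3 (-Real.log R)).1, n1, ?_⟩
  have i1 : Integrable (fun t => 2 * (ω t).re) μ := a1.1.int.re.const_mul _
  have i2 : Integrable (fun t => 2 - 2 * (ω t).re) μ := (integrable_const _).sub i1
  have i3 : Integrable (fun t => R ^ 2 * χ t + (2 - 2 * (ω t).re)) μ :=
    (iχ.const_mul (R ^ 2)).add i2
  unfold d1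
  refine (l1_sq (a1.1.sub (bd_const 1)) hγ i3 (.of_forall fun t => ?_)).trans ?_
  · have : ‖ω t‖ ^ 2 ≤ 1 + R ^ 2 * χ t := by rcases hχ t with h | h <;> simp [h, n1]
    simp only [Complex.sq_norm, normSq_apply, sub_re, sub_im, one_re, one_im] at this ⊢
    linarith
  · have := integral_re a1.1.int
    simp only [RCLike.re_to_complex] at this
    rw [integral_add (iχ.const_mul _) i2, integral_sub (integrable_const _) i1,
      integral_const_mul, integral_const_mul, this, div_add' _ _ _ (by positivity),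
      div_le_iff₀ (by positivity)]
    rw [le_div_iff₀ (by positivity)] at hδ
    simp only [integral_const, probReal_univ, one_smul]
    nlinarith

lemma inner_part {ω : T → ℂ} {ρ : ℝ} (a1 : HH ω) (r2 : 1 ≤ ρ) (n3 : ∀ t, 1 ≤ ‖ω t - ρ‖) :
    ∃ O, HH O ∧ Inn (fun t => O t * (ω t - ρ)) ∧
      1 - (∫ t, O t * (ω t - ρ) ∂μ).re ≤ 2 * d1 ω := by
  obtain ⟨B, a5⟩ := HH.sub a1 (HH.const ρ)
  have n4 : ∀ t, 0 < ‖ω t - ρ‖ := fun t => by linarith [n3 t]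
  obtain ⟨H, h4, h5⟩ := outer (bd_real (a := fun t => Real.log ‖ω t - ρ‖)
    (Real.measurable_log.comp_aemeasurable a5.1.1.norm.aemeasurable).aestronglyMeasurable
    (a5.1.2.mono fun t ht => by
      rw [abs_of_nonneg (Real.log_nonneg (n3 t))]
      exact (Real.log_le_self (norm_nonneg _)).trans ht))
  have m0 : 0 ≤ ∫ t, Real.log ‖ω t - ρ‖ ∂μ := integral_nonneg fun t => Real.log_nonneg (n3 t)
  generalize ∫ t, Real.log ‖ω t - ρ‖ ∂μ = m at *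
  have a6 := HH.mul (HH.const (-1)) (h5 (-1)).1
  have a8 : Inn fun t => -1 * cexp ((-1 : ℝ) * H t) * (ω t - ρ) :=
    ⟨HH.mul a6 ⟨_, a5⟩, .of_forall fun t => by
      simp [Complex.norm_exp, h4, Real.exp_neg, Real.exp_log (n4 t), (n4 t).ne']⟩
  refine ⟨_, a6, a8, ?_⟩
  have i1 := (HH.int (HH.sub a1 (HH.const 1))).norm
  have y2 : Real.exp m ≤ ρ - 1 + d1 ω := by
    have := norm_integral_le_integral_norm (μ := μ) fun t => cexp ((1 : ℝ) * H t)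
    rw [(h5 1).2, one_mul, Complex.norm_real, Real.norm_of_nonneg (Real.exp_pos _).le] at this
    refine this.trans ((integral_mono (HH.int (h5 1).1).norm ((integrable_const (ρ - 1)).add i1)
      fun t => ?_).trans (le_of_eq ?_))
    · simp only [Complex.norm_exp, re_ofReal_mul, one_mul, h4, Real.exp_log (n4 t), Pi.add_apply]
      rw [show ω t - ρ = ω t - 1 - (ρ - 1 : ℝ) by simp, add_comm]
      exact (norm_sub_le _ _).trans (by rw [Complex.norm_real, Real.norm_of_nonneg (by linarith)])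
    · rw [integral_add' (integrable_const _) i1]; simp [d1]
  have y3 := val_dist (HH.int a1) (bd_const 1).int
  have y4 := le_of_abs_le (val_le a8.hi.1)
  rw [mean_mul a6 ⟨_, a5⟩, integral_const_mul, (h5 _).2,
    integral_sub (HH.int a1) (integrable_const _)] at y4 ⊢
  simp only [integral_const, probReal_univ, one_smul, one_re, neg_mul, one_mul, neg_re,
    re_ofReal_mul, sub_re, ofReal_re, Real.exp_neg] at y3 y4 ⊢
  have y6 := mul_inv_cancel₀ (Real.exp_pos m).ne'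
  have y7 := inv_le_one_of_one_le₀ (Real.one_le_exp m0)
  have y8 := inv_pos.2 (Real.exp_pos m)
  have y9 : 0 ≤ d1 ω := integral_nonneg fun _ => norm_nonneg _
  unfold d1 at *
  nlinarith

lemma dr {r ε : ℝ} (h0 : 0 < r) (h1 : r ≤ 1 / 2) (hε : 0 < ε) : ∃ δ > 0, ∀ χ : T → ℝ,
    AEStronglyMeasurable χ μ → (∀ t, χ t = 0 ∨ χ t = 1) → ∫ t, χ t ∂μ ≤ δ →
    ∃ F, Good F ε ∧ ∀ t, ‖F t - χ t‖ ≤ 4 * r := by
  have r2 : 2 ≤ r⁻¹ := by rwa [le_inv_comm₀ two_pos h0, ← one_div]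
  have R1 : 1 ≤ r⁻¹ ^ 2 := by nlinarith
  refine ⟨(ε ^ 2 / 4) ^ 2 / (r⁻¹ ^ 2) ^ 2, by positivity, fun χ hm hχ hδ => ?_⟩
  obtain ⟨ω, a1, a2, n1, y1⟩ := om R1 (by positivity) hm hχ hδ
  have n2 : ∀ t, ‖ω t‖ = 1 ∨ ‖ω t‖ = r⁻¹ ^ 2 := fun t => by
    rcases hχ t with h | h <;> simp [n1, h]
  have a3 : ∀ n t, ‖aa r n (ω t)‖ ≤ 2 * r ^ n := fun n t => by
    refine (norm_sub_le _ _).trans ?_
    have h7 : ‖ω t‖ ^ n ≤ (r⁻¹ ^ 2) ^ n := by gcongr; rcases n2 t with h | h <;> linarith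
    have h8 : ‖ω t‖⁻¹ ^ n ≤ 1 := pow_le_one₀ (by positivity)
      (inv_le_one_of_one_le₀ (by rcases n2 t with h | h <;> linarith))
    simp only [norm_mul, norm_pow, norm_inv, Complex.norm_real, Real.norm_of_nonneg (cc0 h0 n),
      Real.norm_of_nonneg (ee0 h0 n)]
    nlinarith [ce h0 n, cc0 h0 n, ee0 h0 n, show cc r n * (r⁻¹ ^ 2) ^ n = ee r n from rfl]
  have sb := (summable_geometric_of_lt_one h0.le (by linarith)).mul_left 2
  obtain ⟨_, b1⟩ := id a1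
  obtain ⟨_, b2⟩ := id a2
  have a4 := hh_tsum (f := fun n t => aa r n (ω t)) (fun n => HH.hi (HH.sub (HH.mul (HH.const _)
    ⟨_, hi_pow b1 n⟩) (HH.mul (HH.const _) ⟨_, hi_pow b2 n⟩)) (.of_forall (a3 n))) sb
  have n3 : ∀ t, 1 ≤ ‖ω t - (r⁻¹ : ℝ)‖ := fun t => by
    have := abs_norm_sub_norm_le (ω t) (r⁻¹ : ℝ)
    rw [Complex.norm_real, Real.norm_of_nonneg (by positivity), abs_le] at this
    rcases n2 t with h | h <;> nlinarith
  obtain ⟨O, a6, a8, y2⟩ := inner_part a1 (by linarith) n3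
  rw [ofReal_inv] at *
  have a5 := HH.sub a1 (HH.const (r : ℂ)⁻¹)
  have a7 : HH fun t => O t * (ω t - (r : ℂ)⁻¹) * (ω t / (ω t - (r : ℂ)⁻¹) + ∑' n, aa r n (ω t)) :=
    HH.congr (HH.mul a6 (HH.add a1 (HH.mul a5 a4))) (.of_forall fun t => by
      have := mul_div_cancel₀ (ω t) (norm_pos_iff.1 (one_pos.trans_le (n3 t)))
      linear_combination -O t * this)
  have h6 := fun t => phi h0 h1 (hχ t) (n1 t) (sb.of_norm_bounded fun n => a3 n t).hasSum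
  refine ⟨fun t => ω t / (ω t - (r : ℂ)⁻¹) + ∑' n, aa r n (ω t), ⟨⟨1 + 4 * r, ((HH.int a1).1.aemeasurable.div
    (HH.int a5).1.aemeasurable).aestronglyMeasurable.add (HH.int a4).1, .of_forall fun t => ?_⟩,
    _, a8, (near_one a8.hi.1 hε).trans ?_,
    a7, by simpa only [fun t => (h6 t).1] using a7⟩, fun t => (h6 t).2⟩
  · refine (norm_le_insert' _ (χ t : ℂ)).trans (add_le_add ?_ (h6 t).2)
    rcases hχ t with h | h <;> simp [h]
  · rw [div_add' _ _ _ hε.ne', div_le_iff₀ hε]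
    linarith

end Pool.Agent.H.MP_496271_an
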