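import Pool.Agent.H.MP_496271_an.C
namespace Pool.Agent.H.MP_496271_an
open MeasureTheory Metric Pool.Agent.H.MP_ceba03_an ComplexConjugate Filter Topology
open Pool.Agent.H.MP_e9aa5f_an Pool.Agent.H.MP_c4e2dd_an Pool.Agent.H.MP_535799_an Complex

lemma good_const (c : ℂ) : Good (fun _ => c) 0 :=
  ⟨⟨_, bd_const c⟩, _, inn_one, by simp [d1], HH.const _, HH.const _⟩

lemma Good.comb {F G : T → ℂ} {ε ε' : ℝ} (h : Good F ε) (h' : Good G ε') (a b : ℂ) :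
    Good (fun t => a * F t + b * G t) (ε + ε') := by
  obtain ⟨⟨_, h1⟩, u, h2, h3, h4, h5⟩ := h
  obtain ⟨⟨_, h1'⟩, v, h2', h3', h4', h5'⟩ := h'
  refine ⟨⟨_, bd_add ((bd_const a).mul h1) ((bd_const b).mul h1')⟩, _, h2.mul h2',
    (d1_mul h2.hi.1 h2'.hi.1).trans (add_le_add h3 h3'),
    HH.congr (HH.add (HH.mul (HH.const a) (HH.mul h2'.1 h4)) (HH.mul (HH.const b) (HH.mul h2.1 h4')))
      (.of_forall fun t => by ring),
    HH.congr (HH.add (HH.mul (HH.const (conj a)) (HH.mul h2'.1 h5))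
      (HH.mul (HH.const (conj b)) (HH.mul h2.1 h5'))) (.of_forall fun t => by
        simp only [map_add, map_mul]; ring)⟩

lemma Good.mono {F : T → ℂ} {ε ε' : ℝ} (h : Good F ε) (h' : ε ≤ ε') : Good F ε' :=
  let ⟨h1, u, h2, h3, h4⟩ := h; ⟨h1, u, h2, h3.trans h', h4⟩

lemma bin {r : ℝ} (h0 : 0 < r) (h1 : r ≤ 1 / 2) (k : ℕ) : ∀ ε > 0, ∃ δ > 0, ∀ x : T → ℝ,
    Integrable x μ → (∀ᵐ t ∂μ, 0 ≤ x t ∧ x t ≤ 1) → ∫ t, x t ∂μ ≤ δ →
    ∃ F, Good F ε ∧ ∀ᵐ t ∂μ, ‖F t - x t‖ ≤ (1 / 2) ^ k + 4 * r := by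
  induction k with
  | zero => exact fun ε hε => ⟨1, one_pos, fun x _ hx _ => ⟨_, (good_const 0).mono hε.le,
      hx.mono fun t ht => by simp [abs_of_nonneg ht.1]; linarith [ht.2]⟩⟩
  | succ k ih =>
    intro ε hε
    obtain ⟨δ1, h2, h3⟩ := dr h0 h1 (half_pos hε)
    obtain ⟨δ2, h4, h5⟩ := ih _ (half_pos hε)
    refine ⟨min δ1 δ2 / 2, by positivity, fun x hi hx hδ => ?_⟩
    set χ : T → ℝ := {t | 1 / 2 < x t}.indicator 1 with hχ
    have iχ : Integrable χ μ := (integrable_const 1).indicator₀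
      (nullMeasurableSet_lt aemeasurable_const hi.1.aemeasurable)
    have h6 : ∀ t, χ t = 0 ∧ x t ≤ 1 / 2 ∨ χ t = 1 ∧ 1 / 2 < x t := fun t => by
      by_cases h : 1 / 2 < x t
      · exact .inr ⟨Set.indicator_of_mem (s := {t | 1 / 2 < x t}) h _, h⟩
      · exact .inl ⟨Set.indicator_of_notMem (s := {t | 1 / 2 < x t}) h _, not_lt.1 h⟩
    have h7 : ∫ t, χ t ∂μ ≤ 2 * ∫ t, x t ∂μ := by
      rw [← integral_const_mul]
      exact integral_mono_ae iχ (hi.const_mul 2) (hx.mono fun t ht => by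
        rcases h6 t with h | h <;> linarith [h.1, h.2, ht.1])
    have h8 : 0 ≤ ∫ t, χ t ∂μ := integral_nonneg fun t => by rcases h6 t with h | h <;> simp [h.1]
    obtain ⟨F, h9, h10⟩ := h3 χ iχ.1 (fun t => (h6 t).imp And.left And.left)
      (by linarith [min_le_left δ1 δ2])
    obtain ⟨G, h11, h12⟩ := h5 (fun t => 2 * x t - χ t) ((hi.const_mul 2).sub iχ)
      (hx.mono fun t ht => by
        rcases h6 t with h | h <;> constructor <;> linarith [h.1, h.2, ht.1, ht.2])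
      (by rw [integral_sub (hi.const_mul 2) iχ, integral_const_mul]; linarith [min_le_right δ1 δ2])
    refine ⟨_, by simpa using h9.comb h11 (1 / 2) (1 / 2), h12.mono fun t ht => ?_⟩
    have := norm_add_le (F t - χ t) (G t - (2 * x t - χ t : ℝ))
    rw [show F t - χ t + (G t - (2 * x t - χ t : ℝ)) = 2 * (2⁻¹ * F t + 2⁻¹ * G t - x t) by
      push_cast; ring, norm_mul, Complex.norm_ofNat] at this
    have h13 : (1 / 2 : ℝ) ^ k ≤ 1 := pow_le_one₀ (by norm_num) (by norm_num)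
    rw [pow_succ]
    linarith [h10 t]

lemma bin2 {ε : ℝ} (hε : 0 < ε) : ∃ δ > 0, ∀ x : T → ℝ, Integrable x μ → (∀ᵐ t ∂μ, |x t| ≤ 1) →
    ∫ t, |x t| ∂μ ≤ δ → ∃ F, Good F ε ∧ ∀ᵐ t ∂μ, ‖F t - x t‖ ≤ 1 / 128 := by
  obtain ⟨δ, h1, h2⟩ := bin (r := 1 / 2048) (by norm_num) (by norm_num) 9 _ (half_pos hε)
  have h3 : ∀ x : T → ℝ, Integrable x μ → (∀ᵐ t ∂μ, |x t| ≤ 1) → ∫ t, |x t| ∂μ ≤ δ →
      ∃ F, Good F (ε / 2) ∧ ∀ᵐ t ∂μ, ‖F t - (max (x t) 0 : ℝ)‖ ≤ (1 / 2) ^ 9 + 4 * (1 / 2048) :=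
    fun x hi hx hδ => h2 _ hi.pos_part (hx.mono fun t ht =>
      ⟨le_max_right _ _, max_le (le_of_abs_le ht) zero_le_one⟩) ((integral_mono hi.pos_part hi.abs
        fun t => max_le (le_abs_self _) (abs_nonneg _)).trans hδ)
  refine ⟨δ, h1, fun x hi hx hδ => ?_⟩
  obtain ⟨F, h4, h5⟩ := h3 x hi hx hδ
  obtain ⟨G, h6, h7⟩ := h3 (fun t => -x t) hi.neg (by simpa using hx) (by simpa using hδ)
  refine ⟨_, by simpa using h4.comb h6 1 (-1), ?_⟩
  filter_upwards [h5, h7] with t h8 h9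
  have := norm_sub_le (F t - (max (x t) 0 : ℝ)) (G t - (max (-x t) 0 : ℝ))
  rw [show F t - (max (x t) 0 : ℝ) - (G t - (max (-x t) 0 : ℝ)) = F t + -G t - x t by
    conv_rhs => rw [← max_zero_sub_max_neg_zero_eq_self (x t)]
    push_cast; ring] at this
  linarith

lemma nc {F : T → ℂ} {ε : ℝ} (h : Good F ε) (hF : Bd F 2) (h0 : ∫ t, F t ∂μ = 0) :
    ∫ t, ‖F t‖ ^ 2 ∂μ ≤ 12 * ε := by
  obtain ⟨-, u, h2, h3, h4, h5⟩ := h
  have h6 := mean_mul h4 h5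
  have bu := h2.hi.1
  have i1 := (bu.sub (bd_const 1)).int.norm
  have h7 : ‖∫ t, u t * F t ∂μ‖ ≤ 2 * ε := by
    rw [← sub_zero (∫ t, u t * F t ∂μ), ← h0, ← integral_sub (HH.int h4) hF.int]
    refine (norm_integral_le_of_norm_le (i1.const_mul 2) (hF.2.mono fun t ht => ?_)).trans ?_
    · rw [← sub_one_mul, norm_mul, mul_comm]; gcongr
    · rw [integral_const_mul]; exact mul_le_mul_of_nonneg_left h3 zero_le_two
  have h8 : ‖∫ t, u t * conj (F t) ∂μ‖ ≤ 1 * 2 := fc_zero _ ▸ fc_le (bu.mul (bd_conj hF)) 0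
  have b1 := hF.mul (bd_conj hF)
  have h9 := val_dist b1.int (HH.int (HH.mul h4 h5))
  have h10 : ∫ t, ‖F t * conj (F t) - u t * F t * (u t * conj (F t))‖ ∂μ ≤ 8 * ε := by
    refine (integral_mono_ae (b1.int.sub (HH.int (HH.mul h4 h5))).norm (i1.const_mul 8) ?_).trans ?_
    · filter_upwards [bu.2, b1.2] with t h9 h10
      rw [Pi.sub_apply, show F t * conj (F t) - u t * F t * (u t * conj (F t)) =
        -(F t * conj (F t)) * (u t + 1) * (u t - 1) by ring, norm_mul, norm_mul, norm_neg]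
      have := (norm_add_le (u t) 1).trans (add_le_add h9 norm_one.le)
      gcongr; nlinarith [norm_nonneg (u t + 1), norm_nonneg (F t * conj (F t))]
    · rw [integral_const_mul]; exact mul_le_mul_of_nonneg_left h3 (by norm_num)
  simp only [mul_conj', ← ofReal_pow, integral_complex_ofReal, ofReal_re] at h9 h10
  rw [h6] at h9
  have := re_le_norm ((∫ t, u t * F t ∂μ) * ∫ t, u t * conj (F t) ∂μ)
  rw [norm_mul] at this
  nlinarith [norm_nonneg (∫ t, u t * F t ∂μ), norm_nonneg (∫ t, u t * conj (F t) ∂μ)]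

lemma approx0 {γ : ℝ} (hγ : 0 < γ) : ∃ δ > 0, ∀ f, Bd f 1 → ∫ t, ‖f t‖ ∂μ ≤ δ →
    ∃ F, Good F γ ∧ ∀ᵐ t ∂μ, ‖F t - f t‖ ≤ 1 / 64 := by
  obtain ⟨δ, h1, h2⟩ := bin2 (half_pos hγ)
  refine ⟨δ, h1, fun f hf hδ => ?_⟩
  obtain ⟨F, h3, h4⟩ := h2 _ hf.int.re (hf.2.mono fun t => (abs_re_le_norm _).trans)
    ((integral_mono hf.int.re.abs hf.int.norm fun t => abs_re_le_norm _).trans hδ)
  obtain ⟨G, h5, h6⟩ := h2 _ hf.int.im (hf.2.mono fun t => (abs_im_le_norm _).trans)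
    ((integral_mono hf.int.im.abs hf.int.norm fun t => abs_im_le_norm _).trans hδ)
  refine ⟨_, (h3.comb h5 1 I).mono (add_halves _).le, ?_⟩
  filter_upwards [h4, h6] with t h8 h9
  have := norm_add_le (F t - (f t).re) (I * (G t - (f t).im))
  rw [norm_mul, norm_I, show F t - (f t).re + I * (G t - (f t).im) = 1 * F t + I * G t - f t by
    conv_rhs => rw [← re_add_im (f t)]
    ring] at this
  simp only [RCLike.re_to_complex, RCLike.im_to_complex] at h8 h9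
  linarith

lemma approx {γ : ℝ} (hγ : 0 < γ) : ∃ δ > 0, ∀ f, Bd f 1 → ∫ t, ‖f t‖ ∂μ ≤ δ →
    ∃ F, Good F γ ∧ (∀ᵐ t ∂μ, ‖F t - f t‖ ≤ 1 / 20) ∧ ∫ t, ‖F t‖ ∂μ ≤ γ := by
  obtain ⟨δ, h1, h2⟩ := approx0 (γ := min γ (γ ^ 2 / 12)) (by positivity)
  refine ⟨min δ (1 / 64), by positivity, fun f hf hδ => ?_⟩
  obtain ⟨K, h3, h4⟩ := h2 f hf (hδ.trans (min_le_left _ _))
  obtain ⟨B, bK⟩ := h3.1
  have h5 : ‖∫ t, K t ∂μ‖ ≤ 1 / 32 := by
    have := fc_le (φ := fun t => K t - f t) ⟨bK.1.sub hf.1, h4⟩ 0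
    rw [fc_zero, integral_sub bK.int hf.int] at this
    linarith [norm_le_insert' (∫ t, K t ∂μ) (∫ t, f t ∂μ), norm_integral_le_integral_norm (μ := μ) f,
      min_le_right δ (1 / 64)]
  have h6 := h3.comb (good_const (∫ t, K t ∂μ)) 1 (-1)
  have h7 : ∀ᵐ t ∂μ, ‖1 * K t + -1 * ∫ t, K t ∂μ - f t‖ ≤ 1 / 20 := h4.mono fun t ht => by
    rw [show 1 * K t + -1 * ∫ t, K t ∂μ - f t = K t - f t - ∫ t, K t ∂μ by ring]
    linarith [norm_sub_le (K t - f t) (∫ t, K t ∂μ)]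
  have h8 : Bd (fun t => 1 * K t + -1 * ∫ t, K t ∂μ) 2 := ⟨h6.1.choose_spec.1, by
    filter_upwards [h7, hf.2] with t h8 h9
    linarith [norm_le_insert' (1 * K t + -1 * ∫ t, K t ∂μ) (f t)]⟩
  refine ⟨_, h6.mono (by simp), h7, (l1_sq h8 hγ (h8.mul h8).int.norm
    (.of_forall fun t => by rw [norm_mul, sq])).trans ?_⟩
  have h9 := nc h6 h8 (by
    rw [integral_add (bK.int.const_mul _) (integrable_const _), integral_const_mul]; simp)
  simp only [← sq, norm_pow]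
  rw [div_add' _ _ _ (by positivity), div_le_iff₀ (by positivity)]
  nlinarith [min_le_right γ (γ ^ 2 / 12)]

lemma lm {ε : ℝ} (hε : 0 < ε) (h1 : ε ≤ 1) : ∃ δ > 0, ∀ f, HI f 1 → ∫ t, ‖f t‖ ∂μ ≤ δ →
    ∃ ψ p, Inn ψ ∧ d1 ψ ≤ ε ∧ HH p ∧ HH (fun t => ψ t * conj (p t)) ∧
      (∀ᵐ t ∂μ, ‖p t - f t‖ ≤ 1 / 4) ∧ ∫ t, ‖p t‖ ∂μ ≤ ε := by
  obtain ⟨δ, h2, h3⟩ := approx (γ := ε ^ 2 / 480) (by positivity)
  refine ⟨min δ (ε ^ 2 / 480), by positivity, fun f hf hδ => ?_⟩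
  obtain ⟨F, ⟨⟨B, bF⟩, u, h4, h5, h6, h7⟩, h8, h9⟩ := h3 f hf.1 (hδ.trans (min_le_left _ _))
  obtain ⟨w, h10, h11, h12, h13⟩ := aak (v := fun t => 10 * (F t - f t))
    ⟨(bF.1.sub hf.1.1).const_mul _, h8.mono fun t ht => by
      rw [norm_mul, Complex.norm_ofNat]; linarith⟩
  have h14 : d1 w ≤ ε / 2 := by
    refine (near_one h10 (half_pos hε)).trans ?_
    have := integral_mono (bF.int.sub hf.1.int).norm (bF.int.norm.add hf.1.int.norm)
      fun t => norm_sub_le (F t) (f t)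
    rw [integral_add' bF.int.norm hf.1.int.norm] at this
    simp only [norm_mul, Complex.norm_ofNat, integral_const_mul, Pi.sub_apply] at h13 this
    rw [div_add' _ _ _ (by positivity), div_le_iff₀ (by positivity)]
    nlinarith [min_le_right δ (ε ^ 2 / 480)]
  have h15 : Inn fun t => u t * w t := ⟨HH.congr (HH.add (HH.mul h4.1 h12) (HH.mul (HH.const 10)
    (HH.sub h6 (HH.mul h4.1 ⟨_, hf⟩)))) (.of_forall fun t => by ring), by
      filter_upwards [h4.2, h11] with t h15 h16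
      simp [h15, h16]⟩
  have h16 := h4.mul h15
  have h17 : ε ^ 2 / 480 ≤ ε / 4 := by nlinarith
  refine ⟨_, fun t => F t - 1 / 10 * (w t - 1), h16, ?_, HH.congr (HH.sub ⟨_, hf⟩
    (HH.mul (HH.const (1 / 10)) (HH.sub h12 (HH.const 1)))) (.of_forall fun t => by ring),
    HH.congr (HH.sub (HH.mul h15.1 h7) (HH.mul (HH.const (1 / 10))
      (HH.sub (HH.mul h4.1 h4.1) h16.1))) (h11.mono fun t ht => ?_), ?_, ?_⟩
  · linarith [d1_mul h4.hi.1 h15.hi.1, d1_mul h4.hi.1 h10]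
  · have := mul_conj' (w t)
    simp only [ht, ofReal_one, one_pow, map_sub, map_mul, map_one, map_div₀, map_ofNat] at this ⊢
    linear_combination (1 / 10 * u t * u t) * this
  · filter_upwards [h8, h11] with t h18 h19
    have := norm_sub_le (F t - f t) (1 / 10 * (w t - 1))
    rw [norm_mul, sub_right_comm] at this
    have h20 := norm_sub_le (w t) 1
    norm_num at this h20 h18 ⊢
    linarith
  · have i1 := ((h10.sub (bd_const 1)).int.const_mul (1 / 10)).norm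
    refine (integral_mono (bF.int.sub ((h10.sub (bd_const 1)).int.const_mul _)).norm
      (bF.int.norm.add i1) fun t => norm_sub_le (F t) _).trans ?_
    rw [integral_add' bF.int.norm i1]
    simp only [norm_mul, integral_const_mul]
    unfold d1 at h14
    norm_num
    linarith

end Pool.Agent.H.MP_496271_an
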