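import Pool.Agent.H.MP_496271_an.D
namespace Pool.Agent.H.MP_496271_an
open MeasureTheory Metric Pool.Agent.H.MP_ceba03_an ComplexConjugate Filter Topology
open Pool.Agent.H.MP_e9aa5f_an Pool.Agent.H.MP_c4e2dd_an Pool.Agent.H.MP_535799_an Complex

lemma baire {X : Type} [PseudoMetricSpace X] [CompleteSpace X] {S U : Set X} (hS : IsClosed S)
    (hU : IsOpen U) (hn : ∃ x ∈ S, x ∈ U) {F : ℕ → X → ℝ} {M : ℝ}
    (hb : ∀ x ∈ S, x ∈ U → ∃ C, ∀ n, F n x ≤ C)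
    (hc : ∀ n, ∀ x ∈ S, x ∈ U → ∃ δ > 0, ∀ y ∈ S, y ∈ U → dist x y < δ → F n x ≤ F n y + M) :
    ∃ x ∈ S, ∃ δ > 0, ∃ C, ∀ y ∈ S, dist y x < δ → y ∈ U ∧ ∀ n, F n y ≤ C := by
  have := hS.completeSpace_coe
  have hU' : IsOpen (Subtype.val ⁻¹' U : Set S) := hU.preimage continuous_subtype_val
  obtain ⟨x0, h1, h2⟩ := hn
  obtain ⟨x, h3, h4⟩ := (dense_iUnion_interior_of_closed (X := S)
    (f := fun k : ℕ => closure {x | x.1 ∈ U ∧ ∀ n, F n x ≤ k} ∪ (Subtype.val ⁻¹' U)ᶜ)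
    (fun k => isClosed_closure.union hU'.isClosed_compl) (Set.eq_univ_of_forall fun x => by
      by_cases h : x.1 ∈ U
      · obtain ⟨C, hC⟩ := hb x x.2 h
        exact Set.mem_iUnion.2 ⟨⌈C⌉₊, .inl (subset_closure
          ⟨h, fun n => (hC n).trans (Nat.le_ceil C)⟩)⟩
      · exact Set.mem_iUnion.2 ⟨0, .inr h⟩)).inter_open_nonempty _ hU' ⟨⟨x0, h1⟩, h2⟩
  obtain ⟨k, hk⟩ := Set.mem_iUnion.1 h4
  obtain ⟨δ, h5, h6⟩ := Metric.isOpen_iff.1 (hU'.inter isOpen_interior) x ⟨h3, hk⟩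
  refine ⟨x, x.2, δ, h5, k + M, fun y hy h7 => ?_⟩
  obtain ⟨h8, h9⟩ := h6 (show (⟨y, hy⟩ : S) ∈ ball x δ from h7)
  refine ⟨h8, fun n => ?_⟩
  obtain ⟨ε, h10, h11⟩ := hc n y hy h8
  obtain ⟨z, h12, h13⟩ := Metric.mem_closure_iff.1
    ((interior_subset h9).resolve_right fun h => h h8) ε h10
  linarith [h11 z z.2 h12.1 h13, h12.2 n]

structure Fn (L : (T → ℂ) → ℂ) (N : ℝ) : Prop where
  add : ∀ {f g}, HH f → HH g → L (fun t => f t + g t) = L f + L g
  smul : ∀ c {f}, HH f → L (fun t => c * f t) = c * L f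
  bd : ∀ {g B}, HI g B → ‖L g‖ ≤ N * B

variable {L : (T → ℂ) → ℂ} {N : ℝ}

lemma Fn.sub (h : Fn L N) {f g : T → ℂ} (hf : HH f) (hg : HH g) :
    L (fun t => f t - g t) = L f - L g := by
  simpa using (h.add (HH.sub hf hg) hg).symm.trans (by simp) |> eq_sub_of_add_eq

lemma Fn.congr (h : Fn L N) {f g : T → ℂ} (hf : HH f) (h' : f =ᵐ[μ] g) : L f = L g := by
  have := h.bd (HH.hi (B := 0) (HH.sub hf (HH.congr hf h')) (h'.mono fun t ht => by simp [ht]))
  rwa [h.sub hf (HH.congr hf h'), mul_zero, norm_le_zero_iff, sub_eq_zero] at this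

def AC (L : (T → ℂ) → ℂ) (M : ℝ) : Prop :=
  ∃ K ≥ 0, ∀ g B, HI g B → ‖L g‖ ≤ M * B + K * ∫ t, ‖g t‖ ∂μ

lemma hi_scale {g : T → ℂ} {B : ℝ} (h : HI g B) (hB : 0 < B) : HI (fun t => (B : ℂ)⁻¹ * g t) 1 := by
  simpa [abs_of_pos hB, hB.ne'] using (hc (B : ℂ)⁻¹).mul h

lemma step (h : Fn L N) {s ε : ℝ} (hs : 0 < s) (h1 : ¬ AC L s) (h2 : AC L (2 * s)) (hε : 0 < ε) :
    ∃ ψ p, Inn ψ ∧ d1 ψ ≤ ε ∧ HI p 2 ∧ HH (fun t => ψ t * conj (p t)) ∧ s / 2 - 1 ≤ ‖L p‖ ∧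
      ∀ R τ, 0 ≤ τ → HH R → (∀ᵐ t ∂μ, ‖R t‖ ≤ τ * ‖p t‖) → ‖L R‖ ≤ τ * (4 * s + 1) := by
  obtain ⟨K, K0, hK⟩ := h2
  set η := min ε (1 / (2 * K + 1)) with hη
  have η0 : 0 < η := by positivity
  have η1 : η * (2 * K + 1) ≤ 1 := (le_div_iff₀ (by positivity)).1 (min_le_right _ _)
  obtain ⟨δ, δ0, h3⟩ := lm η0 (by nlinarith)
  set δ' := min δ η with hδ
  have δ1 : 0 < δ' := by positivity
  unfold AC at h1
  push Not at h1
  obtain ⟨g, B, h4, h5⟩ := h1 ((|N| + 1) / δ') (by positivity)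
  have i0 : 0 ≤ ∫ t, ‖g t‖ ∂μ := integral_nonneg fun _ => norm_nonneg _
  have B0 : 0 < B := h4.1.nonneg.lt_of_ne fun h0 => by
    have := h.bd h4
    have : 0 ≤ (|N| + 1) / δ' * ∫ t, ‖g t‖ ∂μ := by positivity
    subst h0; linarith
  have h6 := hi_scale h4 B0
  have h7 : s + (|N| + 1) / δ' * ∫ t, ‖(B : ℂ)⁻¹ * g t‖ ∂μ < ‖L fun t => (B : ℂ)⁻¹ * g t‖ := by
    simp only [h.smul _ ⟨_, h4⟩, norm_mul, integral_const_mul, norm_inv, Complex.norm_real,
      Real.norm_of_nonneg B0.le]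
    rw [lt_inv_mul_iff₀ B0]
    convert h5 using 1; field_simp
  obtain ⟨f, h6, h7⟩ : ∃ f, HI f 1 ∧ s + (|N| + 1) / δ' * ∫ t, ‖f t‖ ∂μ < ‖L f‖ := ⟨_, h6, h7⟩
  have i1 : 0 ≤ ∫ t, ‖f t‖ ∂μ := integral_nonneg fun _ => norm_nonneg _
  have h8 : ∫ t, ‖f t‖ ∂μ ≤ δ' := by
    have := h.bd h6
    rw [div_mul_eq_mul_div, ← lt_sub_iff_add_lt', div_lt_iff₀ δ1] at h7
    by_contra! h8
    nlinarith [le_abs_self N, abs_nonneg N]
  obtain ⟨ψ, p, h9, h10, h11, h12, h13, h14⟩ := h3 f h6 (h8.trans (min_le_left _ _))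
  have h15 : HI p 2 := HH.hi h11 (by
    filter_upwards [h13, h6.1.2] with t h15 h16
    linarith [norm_le_insert' (p t) (f t)])
  refine ⟨ψ, p, h9, h10.trans (min_le_left _ _), h15, h12, ?_, fun R τ τ0 hR h16 => ?_⟩
  · have h16 := hK _ _ (HH.hi (HH.sub h11 ⟨_, h6⟩) h13)
    have h17 := integral_mono (h15.1.int.sub h6.1.int).norm (h15.1.int.norm.add h6.1.int.norm)
      fun t => norm_sub_le (p t) (f t)
    rw [integral_add' h15.1.int.norm h6.1.int.norm] at h17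
    rw [h.sub h11 ⟨_, h6⟩] at h16
    have h18 := mul_le_mul_of_nonneg_left (h17.trans (add_le_add h14 (h8.trans (min_le_right _ _))))
      K0
    have h19 : 0 ≤ (|N| + 1) / δ' * ∫ t, ‖f t‖ ∂μ := by positivity
    simp only [Pi.sub_apply] at h18
    nlinarith [norm_le_insert (L p) (L f)]
  · have h17 := hK R (τ * 2) (HH.hi hR (by
      filter_upwards [h16, h15.1.2] with t h17 h18
      exact h17.trans (by gcongr)))
    have h18 := integral_mono_ae (HH.int hR).norm (h15.1.int.norm.const_mul τ) h16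
    rw [integral_const_mul] at h18
    have h19 := mul_le_mul_of_nonneg_left (h18.trans (mul_le_mul_of_nonneg_left h14 τ0)) K0
    nlinarith [mul_nonneg τ0 η0.le]

lemma tri {f g k : T → ℂ} (hf : Integrable f μ) (hg : Integrable g μ) (hk : Integrable k μ) :
    ∫ t, ‖f t - k t‖ ∂μ ≤ ∫ t, ‖f t - g t‖ ∂μ + ∫ t, ‖k t - g t‖ ∂μ := by
  rw [← integral_add (by exact (hf.sub hg).norm) (by exact (hk.sub hg).norm)]
  exact integral_mono (hf.sub hk).norm ((hf.sub hg).norm.add (hk.sub hg).norm) fun t => by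
    simpa only [dist_eq_norm] using dist_triangle_right (f t) (k t) (g t)

lemma inn_lim {f : ℕ → T → ℂ} {g : T → ℂ} (hf : ∀ i, Inn (f i)) (hg : Integrable g μ)
    (h : Tendsto (fun i => ∫ t, ‖f i t - g t‖ ∂μ) atTop (𝓝 0)) : Inn g := by
  have h1 := (hg.norm.sub (integrable_const 1)).abs
  have h2 := (integral_eq_zero_iff_of_nonneg (fun t => abs_nonneg _) h1).1
    (le_antisymm (ge_of_tendsto' h fun i => integral_mono_ae h1 ((HH.int (hf i).1).sub hg).norm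
      ((hf i).2.mono fun t ht => by
        simpa only [ht, abs_sub_comm, Pi.sub_apply] using abs_norm_sub_norm_le (f i t) (g t)))
      (integral_nonneg fun t => abs_nonneg _))
  have h3 : ∀ᵐ t ∂μ, ‖g t‖ = 1 := h2.mono fun t ht => sub_eq_zero.1 (abs_eq_zero.1 ht)
  exact ⟨⟨_, hh_lim (fun i => (hf i).1) ⟨hg.1, h3.mono fun _ h => h.le⟩ h⟩, h3⟩

lemma prod_inn {ψ : ℕ → T → ℂ} (h : ∀ k, Inn (ψ k)) (hd : ∀ k, d1 (ψ k) ≤ (1 / 2) ^ k) :
    ∃ φ, Inn φ ∧ ∀ k g B, Bd g B → HH (fun t => ψ k t * g t) → HH fun t => φ t * g t := by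
  let P : ℕ → T → ℂ := fun n t => ∏ j ∈ Finset.range n, ψ j t
  have h1 : ∀ n, Inn (P n) := fun n => by
    induction n with
    | zero => simpa [P] using inn_one
    | succ n ih => simpa only [P, Finset.prod_range_succ] using ih.mul (h n)
  have h0 := fun n => (h1 n).hi.1.int
  have h2 : ∀ i j, i ≤ j → ∫ t, ‖P i t - P j t‖ ∂μ ≤ 2 * (1 / 2) ^ i - 2 * (1 / 2) ^ j := by
    intro i j hij
    induction j, hij using Nat.le_induction with
    | base => simp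
    | succ j _ ih =>
      have : ∫ t, ‖P (j + 1) t - P j t‖ ∂μ = d1 (ψ j) := integral_congr_ae ((h1 j).2.mono
        fun t ht => by
          simp only [P, Finset.prod_range_succ] at ht ⊢
          rw [← mul_sub_one, norm_mul, ht, one_mul])
      linarith [tri (h0 i) (h0 j) (h0 (j + 1)), hd j, pow_succ (1 / 2 : ℝ) j]
  obtain ⟨φ, h3, h4⟩ := l1_lim (fun n => (h1 n).hi.1) fun ε hε => by
    obtain ⟨N, hN⟩ := exists_pow_lt_of_lt_one (half_pos hε) (show (1 / 2 : ℝ) < 1 by norm_num)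
    refine ⟨N, fun i hi j hj => ?_⟩
    wlog hij : i ≤ j generalizing i j
    · simpa only [norm_sub_rev (P i _)] using this j hj i hi (not_le.1 hij).le
    have := pow_le_pow_of_le_one (show (0 : ℝ) ≤ 1 / 2 by norm_num) (by norm_num) hi
    linarith [h2 i j hij, pow_pos (show (0 : ℝ) < 1 / 2 by norm_num) j]
  refine ⟨φ, inn_lim h1 h3.int h4, fun k g B hg h5 => ⟨_, hh_lim
    (f := fun n t => P (n + (k + 1)) t * g t) (fun n => ?_) (h3.mul hg) ?_⟩⟩
  · induction n with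
    | zero => simpa only [P, zero_add, Finset.prod_range_succ, mul_assoc] using HH.mul (h1 k).1 h5
    | succ n ih =>
      simpa only [P, add_right_comm n 1, Finset.prod_range_succ_comm _ (n + (k + 1)), mul_assoc]
        using HH.mul (h _).1 ih
  · refine squeeze_zero (fun _ => integral_nonneg fun _ => norm_nonneg _) (fun n => ?_)
      (by simpa using ((tendsto_add_atTop_iff_nat (k + 1)).2 h4).const_mul B)
    rw [← integral_const_mul]
    exact integral_mono_ae (((h1 _).hi.1.mul hg).int.sub (h3.mul hg).int).norm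
      (((h0 _).sub h3.int).norm.const_mul B) (hg.2.mono fun t ht => by
        simp only [← sub_mul, norm_mul, mul_comm B]; gcongr)

lemma hh_inv {h : T → ℂ} (h1 : HH h) (h2 : ∀ᵐ t ∂μ, ‖h t - 1‖ ≤ 1 / 100) : HH fun t => (h t)⁻¹ :=
  HH.congr (hh_tsum (fun n => hi_pow (HH.hi (B := 1 / 100) (HH.sub (HH.const 1) h1)
    (by simpa only [norm_sub_rev] using h2)) n)
    (summable_geometric_of_lt_one (by norm_num) (by norm_num))) (h2.mono fun t ht => by
      beta_reduce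
      rw [tsum_geometric_of_norm_lt_one (by rw [norm_sub_rev]; linarith), sub_sub_cancel])

lemma low {x : ℂ} (h : ‖x - 1‖ ≤ 1 / 100) : 99 / 100 ≤ ‖x‖ := by
  have := norm_le_insert x 1
  rw [norm_one] at this; linarith

lemma num1 {φ x y : ℂ} (hφ : ‖φ‖ = 1) (hx : ‖x - 1‖ ≤ 1 / 100) (hy : ‖y - 1‖ ≤ 1 / 100) :
    ‖φ * conj x * x⁻¹ - φ * conj y * y⁻¹‖ ≤ 4 * ‖x - y‖ := by
  have h1 := low hx
  have h2 := low hy
  have x0 : x ≠ 0 := norm_pos_iff.1 (by linarith)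
  have y0 : y ≠ 0 := norm_pos_iff.1 (by linarith)
  rw [show φ * conj x * x⁻¹ - φ * conj y * y⁻¹ = φ * (x * conj (x - y) - conj x * (x - y)) / (x * y)
    by rw [map_sub]; field_simp; ring, norm_div, norm_mul, hφ, one_mul, norm_mul,
    div_le_iff₀ (by positivity)]
  refine (norm_sub_le _ _).trans ?_
  simp only [norm_mul, Complex.norm_conj]
  nlinarith [mul_nonneg (norm_nonneg x) (norm_nonneg (x - y))]

lemma num2 {φ x p τ : ℂ} (hφ : ‖φ‖ = 1) (hx : ‖x - 1‖ ≤ 1 / 100)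
    (hy : ‖x + τ * (φ * conj p) - 1‖ ≤ 1 / 100) :
    ‖φ * conj (x + τ * (φ * conj p)) * (x + τ * (φ * conj p))⁻¹ - φ * conj x * x⁻¹ -
      (conj τ * p - τ * (φ * conj p * φ))‖ ≤ ‖τ‖ / 20 * ‖p‖ := by
  obtain ⟨y, h⟩ : ∃ y, y = x + τ * (φ * conj p) := ⟨_, rfl⟩
  have h0 : φ * conj (x + τ * (φ * conj p)) = φ * conj x + conj τ * p := by
    have := mul_conj' φ
    simp only [hφ, ofReal_one, one_pow, map_add, map_mul, conj_conj] at this ⊢
    linear_combination conj τ * p * this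
  rw [h0, ← h]
  rw [← h] at hy
  have h1 := low hx
  have h2 := low hy
  have x0 : x ≠ 0 := norm_pos_iff.1 (by linarith)
  have y0 : y ≠ 0 := norm_pos_iff.1 (by linarith)
  have h3 : (φ * conj x + conj τ * p) * y⁻¹ - φ * conj x * x⁻¹ - (conj τ * p - τ * (φ * conj p * φ))
      = (τ * (φ * conj p * φ) * (x * (y - 1) + (x - 1) - conj (x - 1)) -
        conj τ * p * (x * (y - 1))) / (x * y) := by
    rw [map_sub, map_one]
    field_simp
    linear_combination (-φ * conj x) * h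
  have h4 : ‖x * (y - 1)‖ ≤ ‖x‖ / 100 := by rw [norm_mul]; nlinarith
  have h5 := norm_sub_le (x * (y - 1) + (x - 1)) (conj (x - 1))
  have h6 := norm_add_le (x * (y - 1)) (x - 1)
  rw [Complex.norm_conj] at h5
  rw [h3, norm_div, div_le_iff₀ (norm_pos_iff.2 (mul_ne_zero x0 y0))]
  refine (norm_sub_le _ _).trans ?_
  rw [norm_mul, norm_mul (conj τ * p), norm_mul x y]
  simp only [norm_mul _ φ, norm_mul φ, norm_mul τ, norm_mul (conj τ), hφ, Complex.norm_conj,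
    mul_one, one_mul]
  rw [← mul_add, div_mul_eq_mul_div, div_mul_eq_mul_div, mul_div_assoc]
  gcongr
  nlinarith

lemma li_dist (x y : Li) : ∀ᵐ t ∂μ, ‖x t - y t‖ ≤ dist x y := by
  filter_upwards [(Li_bd (x - y)).2, Lp.coeFn_sub x y] with t h1 h2
  rwa [h2, ← dist_eq_norm x] at h1

lemma li_mk {g : T → ℂ} {B : ℝ} (h : Bd g B) (x : Li) :
    ∃ y : Li, (y =ᵐ[μ] fun t => x t + g t) ∧ dist y x ≤ B := by
  have h1 := memLp_top_of_bound h.1 B h.2
  refine ⟨x + h1.toLp g, ?_, ?_⟩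
  · filter_upwards [Lp.coeFn_add x (h1.toLp g), h1.coeFn_toLp] with t h2 h3
    rw [h2, Pi.add_apply, h3]
  · rw [dist_eq_norm, add_sub_cancel_left, Lp.norm_toLp]
    exact ENNReal.toReal_le_of_le_ofReal h.nonneg (eLpNormEssSup_le_of_ae_bound h.2)

theorem caseB {L : ℕ → (T → ℂ) → ℂ} {N : ℕ → ℝ} (h : ∀ n, Fn (L n) (N n))
    (hb : ∀ u, Inn u → ∃ C, ∀ n, ‖L n u‖ ≤ C) : ∃ M, ∀ n, AC (L n) M := by
  by_contra! h0
  have h1 : ∀ k : ℕ, ∃ n s, (k + 1 : ℝ) ≤ s ∧ ¬ AC (L n) s ∧ AC (L n) (2 * s) := fun k => by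
    obtain ⟨n, hn⟩ := h0 (k + 1)
    obtain ⟨j, hj⟩ := pow_unbounded_of_one_lt (N n) (one_lt_two (α := ℝ))
    have k1 : (1 : ℝ) ≤ k + 1 := by simp
    obtain ⟨i, h1, h2⟩ := Nat.exists_not_and_succ_of_not_zero_of_exists
      (p := fun j => AC (L n) (2 ^ j * (k + 1))) (by simpa using hn) ⟨j, 0, le_rfl, fun g B hg => by
        rw [zero_mul, add_zero]
        refine ((h n).bd hg).trans (mul_le_mul_of_nonneg_right ?_ hg.1.nonneg)
        nlinarith [pow_pos (two_pos (α := ℝ)) j]⟩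
    refine ⟨n, _, ?_, h1, by rwa [pow_succ', mul_assoc] at h2⟩
    nlinarith [one_le_pow₀ (n := i) (one_le_two (α := ℝ))]
  choose n s s1 s2 s3 using h1
  choose ψ p q1 q2 q3 q4 q5 q6 using fun k => step (h (n k)) (ε := (1 / 2) ^ k)
    ((Nat.cast_add_one_pos k).trans_le (s1 k)) (s2 k) (s3 k) (by positivity)
  obtain ⟨φ, hφ, h2⟩ := prod_inn q1 q2
  have b1 := bd_conj hφ.hi.1
  let S : Set Li := {x | ∀ m < 0, lam one_hi.1 m x = 0 ∧ lam b1 (-m) x = 0}
  have hS : ∀ x : Li, x ∈ S ↔ HH x ∧ HH fun t => φ t * conj (x t) := fun x => by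
    have h3 : ∀ m, fourierCoeff (fun t => φ t * conj (x t)) m = conj (lam b1 (-m) x) := fun m => by
      rw [lam_apply, ← fc_conj]; simp
    exact ⟨fun h => ⟨⟨_, Li_bd x, fun m hm => by simpa [lam_apply] using (h m hm).1⟩,
      _, hφ.hi.1.mul (bd_conj (Li_bd x)), fun m hm => by simp [h3, h m hm]⟩,
      fun ⟨⟨_, h4⟩, _, h5⟩ m hm => ⟨by simpa [lam_apply] using h4.2 m hm,
        by simpa [h3] using h5.2 m hm⟩⟩
  obtain ⟨o, ho, -⟩ := li_mk one_hi.1 0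
  have ho' : o =ᵐ[μ] fun _ => 1 := by
    filter_upwards [ho, Lp.coeFn_zero ℂ ⊤ μ] with t h3 h4
    rw [h3, h4]; simp
  have hU : ∀ x ∈ ball o (1 / 100), ∀ᵐ t ∂μ, ‖x t - 1‖ ≤ 1 / 100 := fun x hx => by
    filter_upwards [li_dist x o, ho'] with t h3 h4
    exact h4 ▸ h3.trans (mem_ball.1 hx).le
  have hI : ∀ x ∈ S, x ∈ ball o (1 / 100) → Inn fun t => φ t * conj (x t) * (x t)⁻¹ :=
    fun x h3 h4 => ⟨HH.mul ((hS x).1 h3).2 (hh_inv ((hS x).1 h3).1 (hU x h4)), by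
      filter_upwards [hφ.2, hU x h4] with t h5 h6
      simp [h5, show ‖x t‖ ≠ 0 by linarith [low h6]]⟩
  obtain ⟨x, hx, δ, δ0, C, hC⟩ := baire (S := S) (M := 1) (by
      simp only [S, Set.ofPred_forall]
      exact isClosed_iInter fun m => isClosed_iInter fun _ =>
        (isClosed_eq (lam _ _).continuous continuous_const).inter
          (isClosed_eq (lam _ _).continuous continuous_const)) isOpen_ball
    ⟨o, (hS o).2 ⟨HH.congr (HH.const 1) ho'.symm, HH.congr hφ.1 (ho'.mono fun t ht => by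
      simp [ht])⟩, mem_ball_self (by norm_num)⟩
    (F := fun n x => ‖L n fun t => φ t * conj (x t) * (x t)⁻¹‖) (fun x h3 h4 => hb _ (hI x h3 h4))
    fun n x h3 h4 => ⟨1 / (4 * (|N n| + 1)), by positivity, fun y h5 h6 h7 => by
      have := (h n).bd (HH.hi (B := 4 * dist x y) (HH.sub (hI x h3 h4).1 (hI y h5 h6).1) (by
        filter_upwards [hφ.2, hU x h4, hU y h6, li_dist x y] with t h8 h9 h10 h11
        linarith [num1 h8 h9 h10]))
      rw [(h n).sub (hI x h3 h4).1 (hI y h5 h6).1] at this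
      rw [lt_div_iff₀ (by positivity)] at h7
      refine (norm_le_insert' _ _).trans (add_le_add le_rfl (this.trans ?_))
      nlinarith [le_abs_self (N n), dist_nonneg (x := x) (y := y)]⟩
  obtain ⟨x1, x2⟩ := hC x hx (by simpa)
  have key : ∀ k (τ : ℂ), ‖τ‖ = δ / 4 → ‖conj τ * L (n k) (p k) -
      τ * L (n k) fun t => φ t * conj (p k t) * φ t‖ ≤ C + C + δ / 4 / 20 * (4 * s k + 1) := by
    intro k τ hτ
    have h3 := h2 k _ _ (bd_conj (q3 k).1) (q4 k)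
    obtain ⟨y, h4, h5⟩ := li_mk ((bd_const τ).mul (hφ.hi.1.mul (bd_conj (q3 k).1))) x
    have h6 : y ∈ S := (hS y).2 ⟨HH.congr (HH.add ((hS x).1 hx).1 (HH.mul (HH.const τ) h3)) h4.symm,
      HH.congr (HH.add ((hS x).1 hx).2 (HH.mul (HH.const (conj τ)) ⟨_, q3 k⟩)) (by
        filter_upwards [h4, hφ.2] with t h6 h7
        have := mul_conj' (φ t)
        simp only [h6, h7, ofReal_one, one_pow, map_add, map_mul, conj_conj] at this ⊢
        linear_combination -conj τ * p k t * this)⟩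
    obtain ⟨y1, y2⟩ := hC y h6 (by rw [hτ] at h5; linarith)
    have h7 := HH.mul (HH.const (conj τ)) ⟨_, q3 k⟩
    have h8 := HH.mul (HH.const τ) (HH.mul h3 hφ.1)
    have h9 := HH.sub (hI y h6 y1).1 (hI x hx x1).1
    have h10 := q6 k _ (δ / 4 / 20) (by positivity) (HH.sub h9 (HH.sub h7 h8)) (by
      filter_upwards [h4, hφ.2, hU x x1, hU y y1] with t h10 h11 h12 h13
      rw [h10] at h13 ⊢
      exact hτ ▸ num2 h11 h12 h13)
    rw [(h _).sub h9 (HH.sub h7 h8), (h _).sub (hI y h6 y1).1 (hI x hx x1).1, (h _).sub h7 h8,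
      (h _).smul _ ⟨_, q3 k⟩, (h _).smul _ (HH.mul h3 hφ.1)] at h10
    exact (norm_le_insert _ _).trans (add_le_add ((norm_sub_le _ _).trans
      (add_le_add (y2 _) (x2 _))) h10)
  obtain ⟨k, hk⟩ := exists_nat_gt (40 * C / δ + 10)
  have h3 := key k (δ / 4 : ℝ) (by rw [Complex.norm_real, Real.norm_of_nonneg (by positivity)])
  have h4 := key k ((δ / 4 : ℝ) * I) (by
    rw [norm_mul, norm_I, mul_one, Complex.norm_real, Real.norm_of_nonneg (by positivity)])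
  rw [← one_mul ‖_‖, ← norm_I, ← norm_mul] at h4
  have h5 := (norm_add_le _ _).trans (add_le_add h3 h4)
  rw [map_mul, conj_ofReal, conj_I, show ∀ a b c : ℂ, c * a - c * b + I * (c * -I * a - c * I * b) =
    2 * c * a from fun a b c => by linear_combination (-c * a - c * b) * I_mul_I, norm_mul,
    norm_mul, Complex.norm_real, Real.norm_of_nonneg (by positivity), Complex.norm_ofNat,
    norm_I] at h5
  rw [← lt_sub_iff_add_lt, div_lt_iff₀ δ0] at hk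
  nlinarith [mul_le_mul_of_nonneg_left (q5 k) δ0.le, mul_le_mul_of_nonneg_left (s1 k) δ0.le,
    mul_nonneg δ0.le k.cast_nonneg]

end Pool.Agent.H.MP_496271_an
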