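import Pool.Agent.H.MP_496271_an.E
namespace Pool.Agent.H.MP_496271_an
open MeasureTheory Metric Pool.Agent.H.MP_ceba03_an ComplexConjugate Filter Topology
open Pool.Agent.H.MP_e9aa5f_an Pool.Agent.H.MP_c4e2dd_an Pool.Agent.H.MP_535799_an Complex
open Polynomial

lemma avg {E : Type} [NormedAddCommGroup E] [NormedSpace ℂ E] [CompleteSpace E]
    {S : Submodule ℂ E} {ℓ : E → ℂ} {N C : ℝ} (h1 : ∀ x ∈ S, ∀ y ∈ S, ℓ (x + y) = ℓ x + ℓ y)
    (h2 : ∀ c : ℂ, ∀ x ∈ S, ℓ (c • x) = c * ℓ x) (h3 : ∀ x ∈ S, ‖ℓ x‖ ≤ N * ‖x‖) {Θ : T → E}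
    (hc : Continuous Θ) (hS : ∀ s, Θ s ∈ S) (hI : ∫ s, Θ s ∂μ ∈ S) (hC : ∀ s, ‖ℓ (Θ s)‖ ≤ C) :
    ‖ℓ (∫ s, Θ s ∂μ)‖ ≤ C := by
  obtain ⟨g, hg, -⟩ := exists_extension_norm_eq S (LinearMap.mkContinuous
    { toFun := fun x => ℓ x, map_add' := fun x y => h1 x x.2 y y.2,
      map_smul' := fun c x => h2 c x x.2 } N fun x => h3 x x.2)
  have h4 : ∀ x ∈ S, ℓ x = g x := fun x hx => (hg ⟨x, hx⟩).symm
  rw [h4 _ hI, ← g.integral_comp_comm
    (hc.integrable_of_hasCompactSupport (HasCompactSupport.of_compactSpace _))]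
  simpa using norm_integral_le_of_norm_le_const (μ := μ)
    (Eventually.of_forall fun s => h4 _ (hS s) ▸ hC s)

lemma refl_poly (F : ℂ[X]) : ∃ (N : ℕ) (G : ℂ[X]), 0 < N ∧ G.eval 0 = 0 ∧
    ∀ w ∈ S, G.eval w = w ^ N * conj (F.eval w) := by
  induction F using Polynomial.induction_on' with
  | add p q hp hq =>
    obtain ⟨N, G, h1, h2, h3⟩ := hp
    obtain ⟨N', G', h1', h2', h3'⟩ := hq
    exact ⟨N + N', X ^ N' * G + X ^ N * G', by omega, by simp [h2, h2'], fun w hw => by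
      simp [h3 w hw, h3' w hw]; ring⟩
  | monomial n c => exact ⟨n + 1, C (conj c) * X, by omega, by simp, fun w hw => by
      have : conj w ^ n * w ^ n = 1 := by rw [← mul_pow, cj hw, one_pow]
      simp only [eval_mul, eval_C, eval_X, eval_monomial, map_mul, map_pow]
      linear_combination -(conj c * w) * this⟩

lemma hh_poly (p : ℂ[X]) : HH fun t => p.eval (e t) := (hh_an (an_poly p) :)

lemma divl {a : ℂ} (ha : a ∉ S) : ∃ D, ∀ f B, HI f B → ∃ c g, ‖c‖ ≤ B ∧ HI g (D * B) ∧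
    ∀ t, f t = c + (e t - a) * g t := by
  have h0 : ∀ t, e t - a ≠ 0 := fun t h => ha (sub_eq_zero.1 h ▸ e_mem t)
  rcases lt_or_gt_of_ne (mt mem_sphere_zero_iff_norm.2 ha) with h | h
  · have hz := mem_ball_zero_iff.2 h
    obtain ⟨D, hD⟩ := bd_cont (kz_cont hz)
    have h1 := (bd_four (-1)).mul hD
    have h2 : ∀ t, e t * fourier (-1) t = 1 := fun t => by rw [e, ← fourier_add]; simp
    refine ⟨1 * D * 2, fun f B hf => ?_⟩
    have h3 := HI.sub hf (hc (Pc f a))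
    refine ⟨Pc f a, fun t => fourier (-1) t * kz a t * (f t - Pc f a), pc_HI hf hz,
      ⟨(h1.mul h3.1).mono ?_, fun n hn => ?_⟩, fun t => ?_⟩
    · rw [mul_assoc _ 2]; gcongr
      · exact h1.nonneg
      · linarith [pc_HI hf hz]
    · obtain ⟨k, rfl⟩ : ∃ k : ℕ, n = -(k + 1 : ℕ) := ⟨(-n - 1).toNat, by omega⟩
      have h4 := pc_mul_an (G := fun w => w ^ k) (analyticOnNhd_id.pow k) h3 hz
      have h5 := pc_add h3.1 (bd_const (Pc f a)) hz
      rw [pc_an (G := fun _ => Pc f a) analyticOnNhd_const hz] at h5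
      simp only [sub_add_cancel, right_eq_add] at h5
      rw [h5, mul_zero] at h4
      rw [← h4, fourierCoeff]
      change _ = ∫ t, _ ∂μ
      congr 1; funext t
      rw [neg_neg, e_pow, smul_eq_mul]
      linear_combination (e t ^ k * kz a t * (f t - Pc f a)) * h2 t
    · linear_combination -(fourier (-1) t * (f t - Pc f a)) * kz_eq hz t - (f t - Pc f a) * h2 t
  · obtain ⟨D, hD⟩ := hh_an (G := fun w => (w - a)⁻¹) fun w hw => AnalyticAt.inv (by fun_prop)
      fun h1 => by rw [sub_eq_zero.1 h1, mem_closedBall_zero_iff] at hw; linarith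
    exact ⟨D, fun f B hf => ⟨0, _, by simpa using hf.1.nonneg, hD.mul hf, fun t => by
      simp [h0 t]⟩⟩

variable {L : ℕ → (T → ℂ) → ℂ} {N : ℕ → ℝ}

lemma inn_e (k : ℕ) : Inn fun t => e t ^ k :=
  ⟨by simpa using hh_poly (X ^ k), by simp [e_norm]⟩

lemma pt_poly (h : ∀ n, Fn (L n) (N n)) (hb : ∀ u, Inn u → ∃ C, ∀ n, ‖L n u‖ ≤ C) (p : ℂ[X]) :
    ∃ C, ∀ n, ‖L n fun t => p.eval (e t)‖ ≤ C := by
  induction p using Polynomial.induction_on' with
  | add p q hp hq =>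
    obtain ⟨C, hC⟩ := hp
    obtain ⟨C', hC'⟩ := hq
    exact ⟨C + C', fun n => by
      simp only [eval_add, (h n).add (hh_poly p) (hh_poly q)]
      exact norm_add_le_of_le (hC n) (hC' n)⟩
  | monomial k c =>
    obtain ⟨C, hC⟩ := hb _ (inn_e k)
    exact ⟨‖c‖ * C, fun n => by
      simp only [eval_monomial, (h n).smul c (inn_e k).1, norm_mul]; gcongr; exact hC n⟩

def PB (L : ℕ → (T → ℂ) → ℂ) (r : ℂ[X]) : Prop :=
  ∃ C, ∀ n f B, HI f B → ‖L n fun t => r.eval (e t) * f t‖ ≤ C * B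

lemma remove (h : ∀ n, Fn (L n) (N n)) (hb : ∀ u, Inn u → ∃ C, ∀ n, ‖L n u‖ ≤ C) (d : ℕ) :
    ∀ r : ℂ[X], r.natDegree = d → (∀ w ∈ S, r.eval w ≠ 0) → PB L r → PB L 1 := by
  induction d with
  | zero =>
    rintro r h1 h2 ⟨K, hK⟩
    obtain ⟨c, rfl⟩ := natDegree_eq_zero.1 h1
    have c0 : c ≠ 0 := by simpa using h2 1 (by simp)
    refine ⟨K * ‖c⁻¹‖, fun n f B hf => ?_⟩
    simpa [c0, mul_assoc] using hK n _ _ ((hc c⁻¹).mul hf)
  | succ d ih =>
    rintro r h1 h2 ⟨K, hK⟩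
    obtain ⟨a, ha⟩ := Complex.exists_root (f := r) (natDegree_pos_iff_degree_pos.1 (by omega))
    obtain ⟨q, rfl⟩ := dvd_iff_isRoot.2 ha
    have q0 : q ≠ 0 := by rintro rfl; simp at h1
    rw [natDegree_mul (X_sub_C_ne_zero a) q0, natDegree_X_sub_C] at h1
    obtain ⟨D, hD⟩ := divl fun h3 => h2 a h3 ha
    obtain ⟨C, hC⟩ := pt_poly h hb q
    refine ih q (by omega) (fun w hw h3 => h2 w hw (by simp [h3])) ⟨C + K * D, fun n f B hf => ?_⟩
    obtain ⟨c, g, h3, h4, h5⟩ := hD f B hf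
    have h6 := (h n).add (HH.mul (HH.const c) (hh_poly q)) 
      (HH.mul (hh_poly ((X - Polynomial.C a) * q)) ⟨_, h4⟩)
    rw [(h n).smul c (hh_poly q)] at h6
    rw [show (fun t => q.eval (e t) * f t) = _ from funext fun t => ?_, h6, add_mul, mul_assoc,
      mul_comm C]
    · refine norm_add_le_of_le ?_ (hK n g _ h4)
      rw [norm_mul]; exact mul_le_mul h3 (hC n) (norm_nonneg _) hf.1.nonneg
    · rw [h5 t]; simp; ring

def Rat (g : T → ℂ) : Prop := ∃ r q : ℂ[X], (∀ w ∈ closedBall (0 : ℂ) 1, q.eval w ≠ 0) ∧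
  (∀ w ∈ S, ‖r.eval w‖ = ‖q.eval w‖) ∧ g =ᵐ[μ] fun t => r.eval (e t) / q.eval (e t)

lemma an_rat (r : ℂ[X]) {q : ℂ[X]} (h : ∀ w ∈ closedBall (0 : ℂ) 1, q.eval w ≠ 0) :
    An fun w => r.eval w / q.eval w := (an_poly r).div (an_poly q) h

lemma Rat.inn {g : T → ℂ} (h : Rat g) : Inn g := by
  obtain ⟨r, q, h1, h2, h3⟩ := h
  exact ⟨HH.congr (hh_an (an_rat r h1) :) h3.symm, h3.mono fun t ht => by
    rw [ht, norm_div, h2 _ (e_mem t), div_self
      (norm_ne_zero_iff.2 (h1 _ (sphere_subset_closedBall (e_mem t))))]⟩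

lemma Rat.mul {f g : T → ℂ} (h : Rat f) (h' : Rat g) : Rat fun t => f t * g t := by
  obtain ⟨r, q, h1, h2, h3⟩ := h
  obtain ⟨r', q', h1', h2', h3'⟩ := h'
  refine ⟨r * r', q * q', fun w hw => by simp [h1 w hw, h1' w hw],
    fun w hw => by simp [h2 w hw, h2' w hw], ?_⟩
  filter_upwards [h3, h3'] with t h4 h5
  simp [h4, h5, div_mul_div_comm]

lemma bernard {L : (T → ℂ) → ℂ} {N : ℝ} (h : Fn L N) {g : T → ℂ} {B : ℝ} (hg : HI g B) {F : ℂ[X]}
    {b C : ℝ} (hb : b < 1) (hF : ∀ w ∈ S, ‖F.eval w‖ ≤ b)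
    (hC : ∀ u, Rat u → ∫ t, u t ∂μ = F.eval 0 → ‖L fun t => g t * u t‖ ≤ C) :
    ‖L fun t => g t * F.eval (e t)‖ ≤ C := by
  obtain ⟨k, G, k0, h1, h2⟩ := refl_poly F
  have h3 : ∀ ζ ∈ closedBall (0 : ℂ) 1, ∀ w ∈ closedBall (0 : ℂ) 1, 1 + ζ * G.eval w ≠ 0 := by
    intro ζ hζ w hw h3
    have h4 := maxA (an_poly G) (B := b) (fun w hw => by
      simpa [h2 w hw, mem_sphere_zero_iff_norm.1 hw] using hF w hw) hw
    have h5 := congrArg norm (neg_eq_of_add_eq_zero_right h3)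
    rw [norm_neg, norm_one, norm_mul] at h5
    nlinarith [mem_closedBall_zero_iff.1 hζ, norm_nonneg (G.eval w)]
  have he := fun t => sphere_subset_closedBall (e_mem t)
  have hc := e_cont
  let Θ : C(T × T, ℂ) := ⟨fun p => (F.eval (e p.2) + e p.1 * e p.2 ^ k) / (1 + e p.1 * G.eval (e p.2)),
    Continuous.div (by fun_prop) (by fun_prop) fun p => h3 _ (he _) _ (he _)⟩
  have h4 : ∀ s, Rat (Θ.curry s) ∧ ∫ t, Θ.curry s t ∂μ = F.eval 0 := fun s => by
    have h4 : ∀ w ∈ closedBall (0 : ℂ) 1, (1 + Polynomial.C (e s) * G).eval w ≠ 0 := by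
      simpa using h3 _ (he s)
    refine ⟨⟨F + Polynomial.C (e s) * X ^ k, _, h4, fun w hw => ?_, .of_forall fun t => by simp [Θ]⟩, ?_⟩
    · have h5 : conj w ^ k * w ^ k = 1 := by rw [← mul_pow, cj hw, one_pow]
      have h6 := cj (e_mem s)
      rw [← Complex.norm_conj, ← one_mul ‖_‖, show (1 + Polynomial.C (e s) * G).eval w =
        e s * w ^ k * conj ((F + Polynomial.C (e s) * X ^ k).eval w) by
          simp only [eval_add, eval_mul, eval_C, eval_one, eval_pow, eval_X, h2 w hw, map_add,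
            map_mul, map_pow]
          linear_combination -h6 - conj (e s) * e s * h5]
      simp [e_norm, mem_sphere_zero_iff_norm.1 hw]
    · have := mv0 (an_rat (F + Polynomial.C (e s) * X ^ k) h4)
      simp only [eval_add, eval_mul, eval_C, eval_one, eval_pow, eval_X] at this
      simpa [Θ, h1, k0.ne'] using this
  have h5 : ∀ t, (∫ s, Θ.curry s ∂μ) t = F.eval (e t) := fun t => by
    rw [ContinuousMap.integral_apply (Θ.curry.continuous.integrable_of_hasCompactSupport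
      (HasCompactSupport.of_compactSpace _))]
    simpa [Θ] using mv0 (G := fun ζ => (F.eval (e t) + ζ * e t ^ k) / (1 + ζ * G.eval (e t)))
      fun ζ hζ => AnalyticAt.div (by fun_prop) (by fun_prop) (h3 _ hζ _ (he t))
  have h6 : ∀ u ∈ DA, HH fun t => g t * u t := fun u hu => ⟨_, hg.mul (DA_hi hu)⟩
  simpa only [h5] using avg (S := DA) (ℓ := fun u => L fun t => g t * u t) (N := N * B)
    (fun x hx y hy => by simpa [mul_add] using h.add (h6 x hx) (h6 y hy))
    (fun c x hx => by simpa [mul_left_comm] using h.smul c (h6 x hx))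
    (fun x hx => by simpa only [mul_assoc] using h.bd (hg.mul (DA_hi hx))) Θ.curry.continuous
    (fun s => (DA_mem _).2 (h4 s).1.inn.hi.2) ((DA_mem _).2 (by
      rw [funext h5]; exact (hh_poly F).choose_spec.2)) fun s => hC _ (h4 s).1 (h4 s).2

lemma l1_dist (x : L1) {g : T → ℂ} (hg : Integrable g μ) :
    dist (hg.toL1 g) x = ∫ t, ‖g t - x t‖ ∂μ := by
  rw [L1.dist_eq_integral_dist]
  exact integral_congr_ae (hg.coeFn_toL1.mono fun t ht => by simp only [ht, dist_eq_norm])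

lemma l1_dist' (x y : L1) : dist x y = ∫ t, ‖x t - y t‖ ∂μ := by
  rw [L1.dist_eq_integral_dist]; simp only [dist_eq_norm]

theorem caseA (h : ∀ n, Fn (L n) (N n)) (hb : ∀ u, Inn u → ∃ C, ∀ n, ‖L n u‖ ≤ C) {M : ℝ}
    (hM : ∀ n, AC (L n) M) : ∃ C, ∀ n g B, HI g B → ‖L n g‖ ≤ C * B := by
  have h1 : ∀ x ∈ closure {x : L1 | Rat x}, Inn x := fun x hx => by
    obtain ⟨u, h1, h2⟩ := mem_closure_iff_seq_limit.1 hx
    refine inn_lim (fun i => (h1 i).inn) (L1.integrable_coeFn x) ?_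
    simpa only [l1_dist'] using tendsto_iff_dist_tendsto_zero.1 h2
  have h2 : ∀ {g} (hg : Rat g), (HH.int hg.inn.1).toL1 g ∈ {x : L1 | Rat x} := fun hg =>
    let ⟨r, q, h2, h3, h4⟩ := id hg
    ⟨r, q, h2, h3, (HH.int hg.inn.1).coeFn_toL1.trans h4⟩
  obtain ⟨x, hx, δ, δ0, C, hC⟩ := baire (M := M * 2 + 1) isClosed_closure isOpen_univ
    ⟨_, subset_closure (h2 (g := fun _ => 1) ⟨1, 1, by simp, by simp, by simp⟩), trivial⟩
    (F := fun n x => ‖L n x‖) (fun x hx _ => hb _ (h1 x hx)) fun n x hx _ => by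
      obtain ⟨K, K0, hK⟩ := hM n
      refine ⟨1 / (K + 1), by positivity, fun y hy _ h3 => ?_⟩
      have := hK _ _ (HI.sub (h1 x hx).hi (h1 y hy).hi)
      rw [(h n).sub (h1 x hx).1 (h1 y hy).1] at this
      rw [l1_dist', lt_div_iff₀ (by positivity)] at h3
      refine (norm_le_insert' _ _).trans (add_le_add le_rfl (this.trans ?_))
      nlinarith [show 0 ≤ ∫ t, ‖x t - y t‖ ∂μ from integral_nonneg fun t => norm_nonneg _]
  obtain ⟨y, hy, h3⟩ := Metric.mem_closure_iff.1 hx _ (half_pos δ0)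
  set a := min (δ ^ 2 / 16) 1 with ha
  have a0 : 0 < a := by positivity
  have a1 : a ≤ 1 := min_le_right _ _
  have h4 : ∀ n u, Rat u → ∫ t, u t ∂μ = (1 - a : ℝ) → ‖L n fun t => y t * u t‖ ≤ C := by
    intro n u hu h4
    have h5 := Rat.mul hy hu
    rw [← (h n).congr (h1 _ (subset_closure (h2 h5))).1 (HH.int h5.inn.1).coeFn_toL1]
    refine (hC _ (subset_closure (h2 h5)) ((dist_triangle_right _ _ y).trans_lt ?_)).2 n
    have h6 := near_one hu.inn.hi.1 (half_pos δ0)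
    rw [l1_dist, integral_congr_ae (g := fun t => ‖u t - 1‖) (hy.inn.2.mono fun t ht => by
      simp only [← mul_sub_one, norm_mul, ht, one_mul])]
    rw [h4, ofReal_re, sub_sub_cancel] at h6
    have : a / (δ / 2) ≤ δ / 8 := by
      rw [div_le_iff₀ (half_pos δ0)]; linarith [min_le_left (δ ^ 2 / 16) 1]
    linarith
  obtain ⟨C1, h5⟩ := hb _ hy.inn
  have h6 : ∀ n (p : ℂ[X]), (∀ t, ‖p.eval (e t)‖ ≤ 1) →
      ‖L n fun t => y t * e t * p.eval (e t)‖ ≤ 2 / a * (C + C1) := fun n p hp => by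
    have h6 := bernard (h n) hy.inn.hi 
      (F := Polynomial.C ((1 - a : ℝ) : ℂ) + Polynomial.C ((a / 2 : ℝ) : ℂ) * X * p)
      (b := 1 - a / 2) (by linarith) (fun w hw => by
        obtain ⟨t, rfl⟩ := e_surj hw
        simp only [eval_add, eval_mul, eval_C, eval_X]
        refine (norm_add_le _ _).trans ?_
        rw [norm_mul, norm_mul, e_norm, Complex.norm_real, Complex.norm_real,
          Real.norm_of_nonneg (by linarith), Real.norm_of_nonneg (by linarith)]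
        nlinarith [hp t]) fun u hu h6 => h4 n u hu (by simpa using h6)
    have h7 := HH.mul (HH.mul hy.inn.1 (inn_e 1).1) (hh_poly p)
    simp only [pow_one] at h7
    have h8 := (h n).add (HH.mul (HH.const (1 - a : ℝ)) hy.inn.1) (HH.mul (HH.const (a / 2 : ℝ)) h7)
    rw [(h n).smul _ hy.inn.1, (h n).smul _ h7] at h8
    rw [show (fun t => y t * eval (e t) _) = _ from funext fun t => ?_, h8] at h6
    · have h9 := norm_le_add_norm_add' ((1 - a : ℝ) * L n y)
        ((a / 2 : ℝ) * L n fun t => y t * e t * p.eval (e t))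
      rw [norm_mul, norm_mul, Complex.norm_real, Complex.norm_real,
        Real.norm_of_nonneg (by linarith), Real.norm_of_nonneg (by linarith)] at h9
      rw [div_mul_eq_mul_div, le_div_iff₀ a0]
      nlinarith [h5 n, norm_nonneg (L n y)]
    · simp only [eval_add, eval_mul, eval_C, eval_X]; ring
  have h7 : ∀ n f, HI f 1 → ‖L n fun t => y t * e t * f t‖ ≤ 2 / a * (C + C1) + M * 2 := by
    intro n f hf
    obtain ⟨K, K0, hK⟩ := hM n
    have h7 : Inn fun t => y t * e t := by simpa using hy.inn.mul (inn_e 1)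
    refine ge_of_tendsto' (by
      simpa using ((fj_tend hf.1.int).const_mul K).const_add (2 / a * (C + C1) + M * 2)) fun k => ?_
    obtain ⟨p, hp⟩ := fj_poly hf.2 k
    have h8 : ∀ t, ‖p.eval (e t)‖ ≤ 1 := fun t => hp t ▸ fj_bd k hf.1 t
    have h9 := h7.hi.mul (HH.hi (hh_poly p) (.of_forall h8))
    have h10 := hK _ _ (HI.sub h9 (h7.hi.mul hf))
    rw [(h n).sub ⟨_, h9⟩ ⟨_, h7.hi.mul hf⟩, integral_congr_ae (g := fun t => ‖fj k f t - f t‖)
      (h7.2.mono fun t ht => by simp only [← mul_sub, norm_mul (y t * e t), ht, one_mul, hp])] at h10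
    refine (norm_le_insert _ _).trans ((add_le_add (h6 n p h8) h10).trans (le_of_eq ?_))
    ring
  obtain ⟨r, q, h8, h9, h10⟩ := id hy
  obtain ⟨D, hD⟩ := hh_poly q
  obtain ⟨C2, h11⟩ := remove h hb _ (r * X) rfl (fun w hw => by
    rw [← norm_ne_zero_iff, eval_mul, eval_X, norm_mul, h9 w hw, mem_sphere_zero_iff_norm.1 hw,
      mul_one, norm_ne_zero_iff]
    exact h8 w (sphere_subset_closedBall hw)) ⟨(2 / a * (C + C1) + M * 2) * D, fun n f B hf => by
    have h11 := hD.mul hf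
    have h12 := HH.mul (HH.mul hy.inn.1 (inn_e 1).1) ⟨_, h11⟩
    rw [← (h n).congr h12 (h10.mono fun t ht => by
      have := h8 _ (sphere_subset_closedBall (e_mem t))
      simp only [ht, eval_mul, eval_X]; field_simp), mul_assoc]
    simp only [pow_one] at h12 ⊢
    rcases h11.1.nonneg.eq_or_lt with h13 | h13
    · simpa [← h13] using (h n).bd (HH.hi h12 (B := 0) (h11.1.2.mono fun t ht => by
        rw [← h13, norm_le_zero_iff] at ht; simp [ht]))
    · have := h7 n _ (hi_scale h11 h13)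
      simp only [mul_left_comm _ ((D * B : ℝ) : ℂ)⁻¹] at this
      rwa [(h n).smul _ h12, norm_mul, norm_inv, Complex.norm_real, Real.norm_of_nonneg h13.le,
        inv_mul_le_iff₀' h13] at this⟩
  exact ⟨C2, by simpa using h11⟩

theorem main_abs (h : ∀ n, Fn (L n) (N n)) (hb : ∀ u, Inn u → ∃ C, ∀ n, ‖L n u‖ ≤ C) :
    ∃ C, ∀ n g B, HI g B → ‖L n g‖ ≤ C * B :=
  let ⟨_, hM⟩ := caseB h hb; caseA h hb hM

end Pool.Agent.H.MP_496271_an
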