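import Pool.Agent.H.MP_496271_an.F
namespace Pool.Agent.H.MP_496271_an
open MeasureTheory Metric Pool.Agent.H.MP_ceba03_an ComplexConjugate Filter Topology
open Pool.Agent.H.MP_e9aa5f_an Pool.Agent.H.MP_c4e2dd_an Pool.Agent.H.MP_535799_an Complex

lemma pois {k : T → ℂ} {C : ℝ} (hk : HI k C) {z : ℂ} (hz : z ∈ ball (0 : ℂ) 1) :
    ∫ t, k t * ((1 - ‖z‖ ^ 2) / ‖e t - z‖ ^ 2 : ℝ) ∂μ = Pc k z := by
  have h0 : ∀ w ∈ closedBall (0 : ℂ) 1, 1 - conj z * w ≠ 0 := fun w hw h1 => by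
    have := congrArg norm (sub_eq_zero.1 h1)
    rw [norm_mul, Complex.norm_conj, norm_one] at this
    exact (mul_lt_one_of_nonneg_of_lt_one_left (norm_nonneg _) (mem_ball_zero_iff.1 hz)
      (mem_closedBall_zero_iff.1 hw)).ne' this
  have h1 := pc_mul_an (G := fun w => (1 - conj z * z) / (1 - conj z * w))
    (fun w hw => AnalyticAt.div (by fun_prop) (by fun_prop) (h0 w hw)) hk hz
  rw [div_self (h0 z (ball_subset_closedBall hz)), one_mul] at h1
  rw [← h1, Pc]
  congr 1; funext t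
  have h2 := h0 _ (sphere_subset_closedBall (e_mem t))
  have h3 := kz_ne hz t
  have h4 : ((‖e t - z‖ : ℝ) : ℂ) ^ 2 = (1 - conj z * e t) * (1 - z * conj (e t)) := by
    rw [← conj_mul', map_sub]; linear_combination (1 - conj z * z) * cj (e_mem t)
  push_cast
  rw [h4, ← conj_mul', kz]
  field_simp

lemma e_coe (y : ℝ) : e y = cexp (I * (2 * Real.pi * y : ℝ)) := by
  rw [e, fourier_coe_apply]; congr 1; push_cast; ring

lemma dist_e (t x : T) : dist t x ≤ ‖1 - conj (e x) * e t‖ := by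
  have h0 : conj (e x) * e t = e (t - x) := by
    conv_lhs => rw [← sub_add_cancel t x, e_add, ← mul_assoc, cj (e_mem x), one_mul]
  rw [h0, dist_eq_norm]
  obtain ⟨y, hy⟩ := QuotientAddGroup.mk_surjective (t - x)
  have h1 : ((y - round y : ℝ) : T) = t - x := by
    rw [← hy, AddCircle.coe_sub, sub_eq_self]
    exact (AddCircle.coe_eq_zero_iff _).2 ⟨round y, by simp⟩
  have h2 := abs_sub_round y
  rw [← h1, (AddCircle.norm_coe_eq_abs_iff _ one_ne_zero).2 (by simpa using h2), e_coe,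
    norm_sub_rev, norm_exp_I_mul_ofReal_sub_one]
  generalize y - round y = v at *
  have h3 := Real.pi_pos
  have h4 := Real.mul_abs_le_abs_sin (x := 2 * Real.pi * v / 2) (by
    rw [mul_assoc, mul_div_cancel_left₀ _ two_ne_zero, abs_mul, abs_of_pos h3]; nlinarith)
  rw [norm_mul, Real.norm_eq_abs (Real.sin _)]
  conv_lhs at h4 => rw [mul_assoc, mul_div_cancel_left₀ _ two_ne_zero, abs_mul, abs_of_pos h3,
    ← mul_assoc, div_mul_cancel₀ _ h3.ne']
  simp; linarith [abs_nonneg v]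

lemma fatou {g : T → ℂ} {B : ℝ} (h : HI g B) : ∀ᵐ x ∂μ,
    Tendsto (fun r : ℝ => Pc g (r * e x)) (𝓝[<] 1) (𝓝 (g x)) := by
  have hv : (volume : Measure T) = μ := by simp [AddCircle.volume_eq_smul_haarAddCircle]
  have h1 := IsUnifLocDoublingMeasure.ae_tendsto_average_norm_sub (volume : Measure T)
    (f := g) (hv ▸ h.1.int.locallyIntegrable) 1
  rw [hv] at h1
  filter_upwards [h1, h.1.2] with x hx hB
  have B0 := h.1.nonneg
  refine Metric.tendsto_nhds.2 fun ε hε => ?_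
  set K := 16 * B / ε + 1 with hK
  have K0 : 0 < K := by positivity
  have h2 : Tendsto (fun r : ℝ => K * (1 - r)) (𝓝[<] 1) (𝓝[>] 0) :=
    tendsto_nhdsWithin_iff.2 ⟨tendsto_nhdsWithin_of_tendsto_nhds
      (Continuous.tendsto' (by fun_prop) _ _ (by simp)),
      eventually_nhdsWithin_of_forall fun r hr => mul_pos K0 (sub_pos.2 hr)⟩
  have h3 := (hx (fun _ => x) _ h2 (eventually_nhdsWithin_of_forall fun r hr => by
    simpa using (mul_pos K0 (sub_pos.2 hr)).le)).const_mul (4 * K)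
  rw [mul_zero] at h3
  filter_upwards [h3.eventually (gt_mem_nhds (half_pos hε)),
    Ioo_mem_nhdsLT (show (0 : ℝ) < 1 by norm_num)] with r h4 hr
  have δ0 := sub_pos.2 hr.2
  obtain ⟨η, hη⟩ : ∃ η, η = K * (1 - r) := ⟨_, rfl⟩
  have η0 : 0 < η := hη ▸ mul_pos K0 δ0
  rw [← hη] at h4
  have n1 : ‖r * e x‖ = r := by simp [e_norm, abs_of_pos hr.1]
  have hz : (r * e x : ℂ) ∈ ball (0 : ℂ) 1 := mem_ball_zero_iff.2 (n1.trans_lt hr.2)
  have h5 := HI.sub h (hc (g x))
  have h6 := pc_add h5.1 (bd_const (g x)) hz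
  rw [pc_an (G := fun _ => g x) analyticOnNhd_const hz] at h6
  simp only [sub_add_cancel] at h6
  have h7 : ∀ w ∈ closedBall (0 : ℂ) 1, 0 ≤ (1 - conj (e x) * w).re := fun w hw => by
    have := re_le_norm (conj (e x) * w)
    rw [norm_mul, Complex.norm_conj, e_norm, one_mul] at this
    rw [sub_re, one_re]; linarith [mem_closedBall_zero_iff.1 hw]
  have h8 : An fun w => (1 - conj (e x) * w) / (1 - conj (e x) * w + η) := fun w hw =>
    AnalyticAt.div (by fun_prop) (by fun_prop) fun h8 => by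
      have := congrArg re h8
      rw [add_re, ofReal_re, zero_re] at this; linarith [h7 w hw]
  obtain ⟨C, h9⟩ := hh_an h8
  have h10 := pois h9 hz
  rw [pc_an h8 hz, show 1 - conj (e x) * (r * e x) = (1 - r : ℝ) by
    push_cast; linear_combination -r * cj (e_mem x), ← ofReal_add, ← ofReal_div] at h10
  have h11 : ∀ t, 1 - r ≤ ‖e t - r * e x‖ := fun t => by
    simpa only [n1, e_norm] using norm_sub_norm_le (e t) (r * e x)
  obtain ⟨_, h12⟩ := bd_cont (φ := fun t => ((1 - ‖r * e x‖ ^ 2) / ‖e t - r * e x‖ ^ 2 : ℝ))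
    (continuous_ofReal.comp (continuous_const.div ((e_cont.sub continuous_const).norm.pow 2)
      fun t => (pow_pos (δ0.trans_le (h11 t)) 2).ne'))
  have i1 := (h9.1.mul h12).int
  have i2 := ((h5.1.int.norm.indicator (measurableSet_closedBall (x := x) (ε := η))).const_mul
    (2 / (1 - r)))
  rw [h6, dist_eq_norm, add_sub_cancel_right, ← pois h5 hz]
  refine (norm_integral_le_of_norm_le (i2.add (i1.re.const_mul (8 * B))) ?_).trans_lt ?_
  · filter_upwards [h.1.2] with t ht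
    have p0 : 0 ≤ 1 - r ^ 2 := by nlinarith [hr.1]
    have s0 := h7 _ (sphere_subset_closedBall (e_mem t))
    have d0 := dist_e t x
    simp only [Pi.add_apply, RCLike.re_to_complex, norm_mul, Complex.norm_real, n1, re_mul_ofReal]
    rw [Real.norm_of_nonneg (by positivity)]
    generalize 1 - conj (e x) * e t = s at *
    have q0 : (s / (s + η)).re = (‖s‖ ^ 2 + η * s.re) / ‖s + η‖ ^ 2 := by
      rw [div_re, Complex.sq_norm, Complex.sq_norm, normSq_apply s]; simp; ring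
    by_cases h13 : t ∈ closedBall x η
    · rw [Set.indicator_of_mem h13, mul_comm, q0]
      refine le_add_of_le_of_nonneg (mul_le_mul_of_nonneg_right ?_ (norm_nonneg _)) (by positivity)
      rw [div_le_div_iff₀ (pow_pos (δ0.trans_le (h11 t)) 2) δ0]
      nlinarith [h11 t, pow_le_pow_left₀ δ0.le (h11 t) 2]
    · rw [Set.indicator_of_notMem h13, mul_zero, zero_add, ← mul_assoc]
      rw [mem_closedBall, not_le] at h13
      have q1 : ‖s + η‖ ≤ 2 * ‖s‖ := (norm_add_le _ _).trans (by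
        rw [Complex.norm_real, Real.norm_of_nonneg η0.le]; linarith)
      have q2 : 0 < ‖s + η‖ := lt_of_lt_of_le (by simp; linarith) (re_le_norm _)
      have q3 : 1 / 4 ≤ (s / (s + η)).re := by
        rw [q0, le_div_iff₀ (by positivity)]
        nlinarith [pow_le_pow_left₀ q2.le q1 2, mul_nonneg η0.le s0]
      gcongr
      nlinarith [norm_sub_le (g t) (g x)]
  · rw [integral_add' i2 (i1.re.const_mul _), integral_const_mul, integral_const_mul, integral_re i1,
      h10, integral_indicator measurableSet_closedBall, ← measure_smul_setAverage _ (by simp)]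
    have q1 : μ.real (closedBall x η) ≤ 2 * η := by
      rw [← hv, Measure.real, AddCircle.volume_closedBall]
      exact ENNReal.toReal_le_of_le_ofReal (by positivity) (ENNReal.ofReal_le_ofReal (min_le_right _ _))
    have q2 : 0 ≤ ⨍ t in closedBall x η, ‖g t - g x‖ ∂μ := integral_nonneg fun _ => norm_nonneg _
    have q3 : 8 * B * ((1 - r) / (1 - r + η)) ≤ ε / 2 := by
      rw [← mul_div_assoc, div_le_iff₀ (by positivity), hη, hK]
      field_simp; nlinarith
    simp only [smul_eq_mul, RCLike.re_to_complex, ofReal_re]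
    refine lt_of_le_of_lt (add_le_add (le_trans (mul_le_mul_of_nonneg_left
      (mul_le_mul_of_nonneg_right q1 q2) (by positivity)) (le_of_eq ?_)) q3)
      ((add_lt_add_left h4 _).trans_eq (add_halves _))
    rw [hη]; field_simp; ring

lemma ae_real {p : T → Prop} (h : ∀ᵐ t ∂μ, p t) : ∀ᵐ θ : ℝ, p ((2 * Real.pi)⁻¹ * θ : ℝ) := by
  have hv : (volume : Measure T) = μ := by simp [AddCircle.volume_eq_smul_haarAddCircle]
  refine (Measure.quasiMeasurePreserving_smul volume (r := (2 * Real.pi)⁻¹) (by positivity)).ae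
    (p := fun y : ℝ => p y) ?_
  rw [← Measure.restrict_univ (μ := volume), ← iUnion_Ioc_intCast, ae_restrict_iUnion_iff]
  exact fun k => (UnitAddCircle.measurePreserving_mk k).quasiMeasurePreserving.ae (hv ▸ h)

lemma pc_diff {g : T → ℂ} {B : ℝ} (h : Bd g B) : DifferentiableOn ℂ (Pc g) (ball 0 1) := by
  intro z hz
  obtain ⟨ρ, h1, h2⟩ := exists_between (mem_ball_zero_iff.1 hz)
  have h3 := differentiableOn_tsum_of_summable_norm (F := fun (n : ℕ) w => fourierCoeff g n * w ^ n)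
    ((summable_geometric_of_lt_one ((norm_nonneg z).trans h1.le) h2).mul_left B)
    (fun n => by fun_prop) (isOpen_ball (x := 0) (ε := ρ)) fun n w hw => by
      rw [norm_mul, norm_pow]
      gcongr
      exacts [h.nonneg, fc_le h n, (mem_ball_zero_iff.1 hw).le]
  exact ((h3.congr fun w hw => (pc_sum h.int (ball_subset_ball h2.le hw)).tsum_eq.symm).differentiableAt
    (isOpen_ball.mem_nhds (mem_ball_zero_iff.2 h1))).differentiableWithinAt

lemma an_dil {F : ℂ → ℂ} (h : DifferentiableOn ℂ F (ball 0 1)) {r : ℝ} (hr : r ∈ Set.Ioo 0 1) :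
    (∀ w ∈ closedBall (0 : ℂ) 1, (r : ℂ) * w ∈ ball (0 : ℂ) 1) ∧ An fun w => F (r * w) := by
  have h1 : ∀ w ∈ closedBall (0 : ℂ) 1, (r : ℂ) * w ∈ ball (0 : ℂ) 1 := fun w hw => by
    rw [mem_ball_zero_iff, norm_mul, Complex.norm_real, Real.norm_of_nonneg hr.1.le]
    exact mul_lt_one_of_nonneg_of_lt_one_left hr.1.le hr.2 (mem_closedBall_zero_iff.1 hw)
  exact ⟨h1, fun w hw =>
    (h.analyticOnNhd isOpen_ball _ (h1 w hw)).comp (f := fun w => (r : ℂ) * w) (by fun_prop)⟩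

lemma coef (n : ℕ) : ∀ F : ℂ → ℂ, DifferentiableOn ℂ F (ball 0 1) → ∃ a : ℂ, ∀ r ∈ Set.Ioo (0 : ℝ) 1,
    fourierCoeff (fun t => F (r * e t)) n = a * r ^ n := by
  induction n with
  | zero => exact fun F h => ⟨F 0, fun r hr => by simpa [fc_zero] using mv0 (an_dil h hr).2⟩
  | succ n ih =>
    intro F h
    have h1 := (differentiableOn_dslope (ball_mem_nhds 0 one_pos)).2 h
    obtain ⟨a, ha⟩ := ih _ h1
    refine ⟨a, fun r hr => ?_⟩
    have h2 := fc_sub (HH.int (hh_an (an_dil h hr).2 :)) (bd_const (F 0)).int (n + 1 : ℕ)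
    have h3 := fourierCoeff.const_mul (fun _ : T => (1 : ℂ)) (F 0) (n + 1 : ℕ)
    rw [fc_one (by omega)] at h3
    simp only [mul_one, mul_zero] at h3
    rw [h3, sub_zero] at h2
    rw [← h2, pow_succ, ← mul_assoc, ← ha r hr, mul_comm, ← fourierCoeff.const_mul]
    simp only [fourierCoeff, fourier_neg, e_pow]
    congr 1; funext t
    have h4 := sub_smul_dslope F 0 (r * e t)
    simp only [smul_eq_mul, sub_zero, map_pow, pow_succ, map_mul] at h4 ⊢
    linear_combination -(conj (e t) ^ n * conj (e t)) * h4 +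
      conj (e t) ^ n * r * dslope F 0 (r * e t) * cj (e_mem t)

lemma bval {F : ℂ → ℂ} (h : DifferentiableOn ℂ F (ball 0 1)) {B : ℝ}
    (hB : ∀ z ∈ ball (0 : ℂ) 1, ‖F z‖ ≤ B) : ∃ g, HI g B ∧ ∀ z ∈ ball (0 : ℂ) 1, Pc g z = F z := by
  choose a ha using fun n => coef n F h
  have h1 : ∀ r ∈ Set.Ioo (0 : ℝ) 1, HI (fun t => F (r * e t)) B := fun r hr =>
    hi_an (an_dil h hr).2 fun w hw => hB _ ((an_dil h hr).1 w (sphere_subset_closedBall hw))
  set c : ℤ → ℂ := fun m => if m < 0 then 0 else a m.toNat with hc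
  have h2 : ∀ r ∈ Set.Ioo (0 : ℝ) 1, ∀ m, fourierCoeff (fun t => F (r * e t)) m = c m * r ^ m.toNat :=
    fun r hr m => by
      rcases lt_or_ge m 0 with hm | hm
      · simp [hc, hm, (h1 r hr).2 m hm]
      · lift m to ℕ using hm
        simp [hc, ha m r hr]
  have h3 : ∀ {φ : ℝ → ℝ} {b : ℝ}, ContinuousAt φ 1 → (∀ r ∈ Set.Ioo (0 : ℝ) 1, φ r ≤ b) → φ 1 ≤ b :=
    fun h3 h4 => le_of_tendsto (h3.tendsto.mono_left (nhdsWithin_le_nhds (s := Set.Iio 1)))
      (mem_of_superset (Ioo_mem_nhdsLT one_pos) h4)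
  obtain ⟨g, h4, h5⟩ := of_l2 (c := c) (memℓp_gen' (C := B ^ 2) fun s => by
    simpa using h3 (φ := fun r => ∑ m ∈ s, ‖c m * r ^ m.toNat‖ ^ 2) (by fun_prop) fun r hr => by
      have h4 := parseval ⟨_, (an_dil h hr).2.co.comp_continuous e_cont e_mem⟩
      simp only [co_toL] at h4
      refine le_trans (le_of_eq ?_) ((sum_le_hasSum s (fun _ _ => by positivity) h4).trans ?_)
      · exact Finset.sum_congr rfl fun m _ => by rw [← h2 r hr]; rfl
      · simpa using integral_mono_of_nonneg (μ := μ) (.of_forall fun t => by positivity)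
          (integrable_const (B ^ 2)) ((h1 r hr).1.2.mono fun t ht =>
            pow_le_pow_left₀ (norm_nonneg _) ht 2))
  refine ⟨g, ⟨bd_lim h4 fun N t => ?_, fun n hn => by simp [h5, hc, hn]⟩, fun z hz => ?_⟩
  · simpa [fj, tp, h5, -fourier_apply] using h3 (φ := fun r => ‖∑ m ∈ Finset.Icc (-(N : ℤ)) N,
      w N m * (c m * r ^ m.toNat) * fourier m t‖) (by fun_prop) fun r hr => by
        simpa [fj, tp, h2 r hr, -fourier_apply] using fj_bd N (h1 r hr).1 t
  · obtain ⟨r, h6, h7⟩ := exists_between (mem_ball_zero_iff.1 hz)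
    have hr : r ∈ Set.Ioo (0 : ℝ) 1 := ⟨(norm_nonneg z).trans_lt h6, h7⟩
    have r0 : (r : ℂ) ≠ 0 := ofReal_ne_zero.2 hr.1.ne'
    have h8 : z / r ∈ ball (0 : ℂ) 1 := by
      rwa [mem_ball_zero_iff, norm_div, Complex.norm_real, Real.norm_of_nonneg hr.1.le,
        div_lt_one hr.1]
    have h9 := pc_sum (h1 r hr).1.int h8
    rw [pc_an (an_dil h hr).2 h8, mul_div_cancel₀ _ r0] at h9
    refine (pc_sum h4 hz).unique ?_
    simpa [h2 r hr, h5, mul_assoc, ← mul_pow, mul_div_cancel₀ _ r0] using h9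

abbrev BC := BoundedContinuousFunction (ball (0 : ℂ) 1) ℂ

def Ho (f : BC) : Prop := ∃ F : ℂ → ℂ, DifferentiableOn ℂ F (ball 0 1) ∧ ∀ z, f z = F z

lemma span_ho {f : BC} (h : f ∈ Submodule.span ℂ {f | Ho f}) : Ho f := by
  induction h using Submodule.span_induction with
  | mem _ h => exact h
  | zero => exact ⟨0, by fun_prop, by simp⟩
  | add _ _ _ _ h h' =>
    obtain ⟨F, h1, h2⟩ := h
    obtain ⟨G, h3, h4⟩ := h'
    exact ⟨F + G, h1.add h3, by simp [h2, h4]⟩
  | smul c _ _ h =>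
    obtain ⟨F, h1, h2⟩ := h
    exact ⟨c • F, h1.const_smul c, by simp [h2]⟩

lemma ex_ex : ∃ ex : (T → ℂ) → Submodule.span ℂ {f | Ho f}, ∀ g, HH g → ∀ z, (ex g).1 z = Pc g z := by
  have : ∀ g, ∃ f : Submodule.span ℂ {f | Ho f}, HH g → ∀ z, f.1 z = Pc g z := fun g => by
    by_cases h : HH g
    · obtain ⟨B, h⟩ := h
      exact ⟨⟨.ofNormedAddCommGroup (fun z => Pc g z) (pc_diff h.1).continuousOn.domRestrict B
        fun z => pc_HI h z.2, Submodule.subset_span ⟨_, pc_diff h.1, fun _ => rfl⟩⟩, fun _ _ => rfl⟩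
    · exact ⟨0, fun h' => absurd h' h⟩
  exact ⟨_, fun g => (this g).choose_spec⟩

theorem final (Λ : ℕ → Submodule.span ℂ {f | Ho f} →L[ℂ] ℂ)
    (h : ∀ φ : Submodule.span ℂ {f | Ho f}, (∃ F : ℂ → ℂ, (∀ z, φ.1 z = F z) ∧
      ∀ᵐ θ : ℝ, ∃ w : ℂ, ‖w‖ = 1 ∧ Tendsto (fun r : ℝ => F (r * cexp (θ * I))) (𝓝[<] 1) (𝓝 w)) →
      ∃ C : ℝ, ∀ n, ‖Λ n φ‖ ≤ C) : ∃ C : ℝ, ∀ n, ‖Λ n‖ ≤ C := by
  obtain ⟨ex, hex⟩ := ex_ex
  obtain ⟨C, hC⟩ := main_abs (L := fun n g => Λ n (ex g)) (N := fun n => ‖Λ n‖) (fun n =>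
    ⟨fun {f g} hf hg => by
      rw [← map_add]; congr 1; ext z
      simpa [hex _ hf, hex _ hg, hex _ (HH.add hf hg)] using
        pc_add hf.choose_spec.1 hg.choose_spec.1 z.2,
    fun c f hf => by
      rw [← smul_eq_mul, ← map_smul]; congr 1; ext z
      simp [hex _ hf, hex _ (HH.mul (HH.const c) hf), Pc, mul_assoc, integral_const_mul],
    fun {g B} hg => (Λ n).le_of_opNorm_le_of_le le_rfl
      ((BoundedContinuousFunction.norm_le hg.1.nonneg).2 fun z => hex g ⟨B, hg⟩ z ▸ pc_HI hg z.2)⟩)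
    fun u hu => h _ ⟨Pc u, hex u hu.1, by
      filter_upwards [ae_real (hu.2.and (fatou hu.hi))] with θ hθ
      refine ⟨_, hθ.1, ?_⟩
      convert hθ.2 using 4
      rw [e_coe, mul_inv_cancel_left₀ (by positivity), mul_comm]⟩
  refine ⟨|C|, fun n => (Λ n).opNorm_le_bound (abs_nonneg C) fun f => ?_⟩
  obtain ⟨F, h1, h2⟩ := span_ho f.2
  obtain ⟨g, h3, h4⟩ := bval h1 (B := ‖f‖) fun z hz => h2 ⟨z, hz⟩ ▸ f.1.norm_coe_le_norm _
  have h5 : ex g = f := by ext z; rw [hex g ⟨_, h3⟩, h4 _ z.2, h2]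
  exact h5 ▸ (hC n g _ h3).trans (h5 ▸ mul_le_mul_of_nonneg_right (le_abs_self C) (norm_nonneg _))

end Pool.Agent.H.MP_496271_an
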